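import Pool.Agent.V2450.Deligne.Mono

/-!
# Deligne's conjecture and inductions of characters
-/

set_option autoImplicit false

open scoped Classical

namespace Pool.Agent.V2450.Deligne

universe u v

section alg

variable {k : Type u} [Field k] {G : Type v} [Group G] {V : Type u} [AddCommGroup V] [Module k V]

/-- The subgroup `N` acts through an abelian quotient. -/
def Ab (ρ : Representation k G V) (N : Subgroup G) : Prop :=
  ∀ x ∈ N, ∀ y ∈ N, ρ (x * y) = ρ (y * x)

/-- The representation is induced from a character of a subgroup `H` of finite index which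
contains `N`: there is a basis `b` of `V`, indexed by `G ⧸ H`, such that `g` maps the line of
`b x` to the line of `b (g x)`. -/
def IsInduced (N : Subgroup G) (ρ : Representation k G V) : Prop :=
  ∃ H : Subgroup G, N ≤ H ∧ H.index ≠ 0 ∧ ∃ b : Module.Basis (G ⧸ H) k V,
    ∀ (g : G) (x : G ⧸ H), ∃ a : k, ρ g (b x) = a • b (g • x)

/-- A group is supersolvable: it has a finite chain of normal subgroups with cyclic quotients. -/
def Supersolvable (Q : Type v) [Group Q] : Prop :=
  ∃ (n : ℕ) (N : ℕ → Subgroup Q), (∀ i, (N i).Normal) ∧ N 0 = ⊥ ∧ N n = ⊤ ∧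
    (∀ i, N i ≤ N (i + 1)) ∧ ∀ i, ∃ x, N (i + 1) = N i ⊔ Subgroup.zpowers x

/-- Commuting operators have a common eigenvector. -/
lemma exists_common [IsAlgClosed k] [FiniteDimensional k V] [Nontrivial V]
    (ρ : Representation k G V) (N : Subgroup G) (hab : Ab ρ N) :
    ∃ v : V, v ≠ 0 ∧ N ≤ lineStab ρ v := by
  have hex : ∃ d : ℕ, ∃ W : Submodule k V, W ≠ ⊥ ∧ (∀ g ∈ N, ∀ w ∈ W, ρ g w ∈ W) ∧
      Module.finrank k W = d :=
    ⟨_, ⊤, bot_ne_top.symm, fun _ _ _ _ => Submodule.mem_top, rfl⟩
  obtain ⟨W, hW0, hWs, hWd⟩ := Nat.find_spec hex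
  have hmin : ∀ W' : Submodule k V, W' ≠ ⊥ → (∀ g ∈ N, ∀ w ∈ W', ρ g w ∈ W') →
      Module.finrank k W ≤ Module.finrank k W' := by
    intro W' h1 h2
    rw [hWd]
    exact Nat.find_min' hex ⟨W', h1, h2, rfl⟩
  obtain ⟨v, hvW, hv0⟩ := (Submodule.ne_bot_iff W).1 hW0
  refine ⟨v, hv0, fun x hx => ?_⟩
  have : Nontrivial W := (Submodule.nontrivial_iff_ne_bot).2 hW0
  obtain ⟨μ, hμ⟩ := Module.End.exists_eigenvalue ((ρ x).restrict (hWs x hx))
  obtain ⟨w, hw⟩ := hμ.exists_hasEigenvector
  have hw1 : ρ x (w : V) = μ • (w : V) := congrArg Subtype.val hw.apply_eq_smul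
  let W' : Submodule k V := W ⊓ LinearMap.ker (ρ x - μ • LinearMap.id)
  have hW' : ∀ u, u ∈ W' ↔ u ∈ W ∧ ρ x u = μ • u := by
    intro u
    rw [Submodule.mem_inf, LinearMap.mem_ker, LinearMap.sub_apply, LinearMap.smul_apply, LinearMap.id_apply,
      sub_eq_zero]
  have h1 : W' ≠ ⊥ := by
    rw [Submodule.ne_bot_iff]
    exact ⟨w, (hW' _).2 ⟨w.2, hw1⟩, fun h => hw.2 (Subtype.ext h)⟩
  have h2 := hmin W' h1 (by
    intro g hg u hu
    rw [hW'] at hu ⊢
    refine ⟨hWs g hg u hu.1, ?_⟩
    rw [← mul_app, hab x hx g hg, mul_app, hu.2, map_smul])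
  have h3 : W' = W := Submodule.eq_of_le_of_finrank_le inf_le_left h2
  exact ⟨μ, ((hW' v).1 (h3 ▸ hvW)).2⟩

/-- Irreducible representations are induced from characters. -/
theorem isInduced_of_irr [IsAlgClosed k] [FiniteDimensional k V] [Nontrivial V]
    (ρ : Representation k G V) (N : Subgroup G) [hN : N.Normal] (hQ : Supersolvable (G ⧸ N))
    (hab : Ab ρ N) (hirr : ∀ W : Submodule k V, Stable ρ W → W = ⊥ ∨ W = ⊤) :
    IsInduced N ρ := by
  obtain ⟨n, C, hC1, hC2, hC3, hC4, hC5⟩ := hQ
  have hC0 : (C 0).comap (QuotientGroup.mk' N) = N := by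
    rw [hC2, MonoidHom.comap_bot, QuotientGroup.ker_mk']
  obtain ⟨K, hK1, hK2, hK3, v, hv, hK4⟩ := exists_index_le (k := k) (n + Module.finrank k V) n G V ρ
    (fun i => (C i).comap (QuotientGroup.mk' N))
    (fun i => (hC1 i).comap _)
    (by rw [hC3, Subgroup.comap_top])
    (fun i => Subgroup.comap_mono (hC4 i))
    (by
      intro i
      obtain ⟨x, hx⟩ := hC5 i
      obtain ⟨y, rfl⟩ := QuotientGroup.mk'_surjective N x
      refine ⟨y, fun g hg => ?_⟩
      rw [Subgroup.mem_comap, hx] at hg
      have h1 : (((C i).comap (QuotientGroup.mk' N)) ⊔ Subgroup.zpowers y).map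
          (QuotientGroup.mk' N) = C i ⊔ Subgroup.zpowers (QuotientGroup.mk' N y) := by
        rw [Subgroup.map_sup, MonoidHom.map_zpowers,
          Subgroup.map_comap_eq_self_of_surjective (QuotientGroup.mk'_surjective N)]
      rw [← h1] at hg
      obtain ⟨g', hg', he⟩ := hg
      have h2 : g'⁻¹ * g ∈ N := QuotientGroup.eq.1 he
      have h3 : N ≤ (C i).comap (QuotientGroup.mk' N) := by
        intro z hz
        rw [Subgroup.mem_comap]
        have : QuotientGroup.mk' N z = 1 := (QuotientGroup.eq_one_iff z).2 hz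
        rw [this]
        exact one_mem _
      have h4 : g = g' * (g'⁻¹ * g) := by group
      rw [h4]
      exact mul_mem hg' (Subgroup.mem_sup_left (h3 h2)))
    le_rfl
    (by
      rw [hC0]
      exact exists_common ρ N hab)
  rw [hC0] at hK1
  have : Finite (G ⧸ K) := by
    rw [← not_infinite_iff_finite]
    intro h
    exact hK2 (Nat.card_eq_zero_of_infinite (α := G ⧸ K))
  have := Fintype.ofFinite (G ⧸ K)
  let b : G ⧸ K → V := fun q => ρ q.out v
  have hb : ∀ (g : G) (q : G ⧸ K), ∃ a : k, ρ g (b q) = a • b (g • q) := by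
    intro g q
    have h1 : ((g • q).out)⁻¹ * (g * q.out) ∈ K := by
      rw [← QuotientGroup.eq, QuotientGroup.out_eq', ← smul_eq_mul, ← MulAction.Quotient.smul_coe,
        QuotientGroup.out_eq']
    obtain ⟨a, ha⟩ := hK4 h1
    refine ⟨a, ?_⟩
    have h2 : g * q.out = (g • q).out * (((g • q).out)⁻¹ * (g * q.out)) := by group
    change ρ g (ρ q.out v) = a • ρ (g • q).out v
    rw [← mul_app, h2, mul_app, ha, map_smul]
  have hspan : ⊤ ≤ Submodule.span k (Set.range b) := by
    have h1 : Stable ρ (Submodule.span k (Set.range b)) := by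
      intro g w hw
      refine Submodule.span_induction ?_ ?_ ?_ ?_ hw
      · rintro _ ⟨q, rfl⟩
        obtain ⟨a, ha⟩ := hb g q
        rw [ha]
        exact Submodule.smul_mem _ _ (Submodule.subset_span ⟨_, rfl⟩)
      · rw [map_zero]
        exact Submodule.zero_mem _
      · intro x y _ _ hx hy
        rw [map_add]
        exact Submodule.add_mem _ hx hy
      · intro a x _ hx
        rw [map_smul]
        exact Submodule.smul_mem _ _ hx
    rcases hirr _ h1 with h2 | h2
    · exfalso
      have h3 : b ((1 : G) : G ⧸ K) ∈ Submodule.span k (Set.range b) :=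
        Submodule.subset_span ⟨_, rfl⟩
      rw [h2, Submodule.mem_bot] at h3
      have h4 := congrArg (ρ (((1 : G) : G ⧸ K).out)⁻¹) h3
      change ρ _ (ρ _ v) = _ at h4
      rw [inv_apply, map_zero] at h4
      exact hv h4
    · rw [h2]
  have hcard : Fintype.card (G ⧸ K) ≤ Module.finrank k V := by
    rw [← Nat.card_eq_fintype_card]
    exact hK3
  have hli : LinearIndependent k b := linearIndependent_of_top_le_span_of_card_le_finrank hspan hcard
  refine ⟨K, hK1, hK2, Module.Basis.mk hli hspan, fun g x => ?_⟩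
  rw [Module.Basis.mk_apply, Module.Basis.mk_apply]
  exact hb g x

end alg

/-- The direct sums of representations which are induced from characters of subgroups of finite
index which contain `N`. -/
inductive SumInd {k : Type} [Field k] {G : Type} [Group G] (N : Subgroup G) :
    ∀ (V : Type) [AddCommGroup V] [Module k V], Representation k G V → Prop
  | ind (V : Type) [AddCommGroup V] [Module k V] (ρ : Representation k G V) :
      IsInduced N ρ → SumInd N V ρ
  | add (V : Type) [AddCommGroup V] [Module k V] (ρ : Representation k G V) (W W' : Submodule k V)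
      (hW : Stable ρ W) (hW' : Stable ρ W') : IsCompl W W' → SumInd N W (sub ρ W hW) →
      SumInd N W' (sub ρ W' hW') → SumInd N V ρ

/-- The values in Deligne's conjecture. -/
structure Sides (k G A : Type) [Field k] [Group G] [CommRing A] [Algebra k A] where
  /-- the motive is critical at the integer considered -/
  crit : ∀ (V : Type) [AddCommGroup V] [Module k V], Representation k G V → Prop
  /-- the value of the `L`-function -/
  L : ∀ (V : Type) [AddCommGroup V] [Module k V], Representation k G V → A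
  /-- the period -/
  c : ∀ (V : Type) [AddCommGroup V] [Module k V], Representation k G V → A

section main

variable {k G A : Type} [Field k] [Group G] [CommRing A] [Algebra k A]

/-- Deligne's conjecture for the motive with the representation `ρ`. -/
def Conj (D : Sides k G A) (V : Type) [AddCommGroup V] [Module k V]
    (ρ : Representation k G V) : Prop :=
  ∃ e : k, D.L V ρ = algebraMap k A e * D.c V ρ

/-- The representations are isomorphic. -/
def Iso {V V' : Type} [AddCommGroup V] [Module k V] [AddCommGroup V'] [Module k V']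
    (ρ : Representation k G V) (ρ' : Representation k G V') : Prop :=
  ∃ f : V ≃ₗ[k] V', ∀ g v, f (ρ g v) = ρ' g (f v)

/-- The known facts. -/
structure IsKnown (D : Sides k G A) : Prop where
  finite : ∀ (V : Type) [AddCommGroup V] [Module k V] (ρ : Representation k G V), D.crit V ρ →
    FiniteDimensional k V
  summand : ∀ (V : Type) [AddCommGroup V] [Module k V] (ρ : Representation k G V)
    (W : Submodule k V) (h : Stable ρ W), D.crit V ρ → D.crit W (sub ρ W h)
  semisimple : ∀ (V : Type) [AddCommGroup V] [Module k V] (ρ : Representation k G V)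
    (W : Submodule k V), Stable ρ W → D.crit V ρ → ∃ W' : Submodule k V, Stable ρ W' ∧ IsCompl W W'
  mulL : ∀ (V : Type) [AddCommGroup V] [Module k V] (ρ : Representation k G V)
    (W W' : Submodule k V) (h : Stable ρ W) (h' : Stable ρ W'), D.crit V ρ → IsCompl W W' →
    D.L V ρ = D.L W (sub ρ W h) * D.L W' (sub ρ W' h')
  mulc : ∀ (V : Type) [AddCommGroup V] [Module k V] (ρ : Representation k G V)
    (W W' : Submodule k V) (h : Stable ρ W) (h' : Stable ρ W'), D.crit V ρ → IsCompl W W' →
    ∃ u : k, u ≠ 0 ∧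
      D.c V ρ = algebraMap k A u * (D.c W (sub ρ W h) * D.c W' (sub ρ W' h'))
  unit : ∀ (V : Type) [AddCommGroup V] [Module k V] (ρ : Representation k G V), D.crit V ρ →
    IsUnit (D.c V ρ)
  isoL : ∀ (V V' : Type) [AddCommGroup V] [Module k V] [AddCommGroup V'] [Module k V']
    (ρ : Representation k G V) (ρ' : Representation k G V'), Iso ρ ρ' → D.L V ρ = D.L V' ρ'
  isoc : ∀ (V V' : Type) [AddCommGroup V] [Module k V] [AddCommGroup V'] [Module k V']
    (ρ : Representation k G V) (ρ' : Representation k G V'), Iso ρ ρ' →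
    ∃ u : k, u ≠ 0 ∧ D.c V ρ = algebraMap k A u * D.c V' ρ'
  hecke : ∀ (V : Type) [AddCommGroup V] [Module k V] (ρ : Representation k G V), D.crit V ρ →
    IsInduced ⊥ ρ → Conj D V ρ

variable {D : Sides k G A}

/-- Critical motives which are abelian over a supersolvable extension are sums of inductions. -/
theorem sumInd [IsAlgClosed k] (hD : IsKnown D) (N : Subgroup G) [N.Normal]
    (hQ : Supersolvable (G ⧸ N)) (d : ℕ) : ∀ (V : Type) [AddCommGroup V] [Module k V]
    (ρ : Representation k G V), D.crit V ρ → Nontrivial V → Ab ρ N → Module.finrank k V = d →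
    SumInd N V ρ := by
  induction d using Nat.strong_induction_on with
  | _ d ih =>
    intro V _ _ ρ hc hV hab hd
    have := hD.finite V ρ hc
    by_cases hirr : ∀ W : Submodule k V, Stable ρ W → W = ⊥ ∨ W = ⊤
    · exact SumInd.ind V ρ (isInduced_of_irr ρ N hQ hab hirr)
    · push Not at hirr
      obtain ⟨W, hW, hW0, hW1⟩ := hirr
      obtain ⟨W', hW', hcompl⟩ := hD.semisimple V ρ W hW hc
      have hab' : ∀ (U : Submodule k V) (hU : Stable ρ U), Ab (sub ρ U hU) N := by
        intro U hU x hx y hy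
        ext w
        change ρ (x * y) (w : V) = ρ (y * x) (w : V)
        rw [hab x hx y hy]
      have hW'0 : W' ≠ ⊥ := by
        intro h
        rw [h] at hcompl
        exact hW1 (eq_top_of_isCompl_bot hcompl)
      have hW'1 : W' ≠ ⊤ := by
        intro h
        rw [h] at hcompl
        exact hW0 (eq_bot_of_isCompl_top hcompl)
      refine SumInd.add V ρ W W' hW hW' hcompl ?_ ?_
      · refine ih _ ?_ W (sub ρ W hW) (hD.summand V ρ W hW hc)
          (Submodule.nontrivial_iff_ne_bot.2 hW0) (hab' W hW) rfl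
        rw [← hd]
        exact Submodule.finrank_lt hW1
      · refine ih _ ?_ W' (sub ρ W' hW') (hD.summand V ρ W' hW' hc)
          (Submodule.nontrivial_iff_ne_bot.2 hW'0) (hab' W' hW') rfl
        rw [← hd]
        exact Submodule.finrank_lt hW'1

lemma IsInduced.mono {N : Subgroup G} {V : Type} [AddCommGroup V] [Module k V]
    {ρ : Representation k G V} (h : IsInduced N ρ) : IsInduced ⊥ ρ := by
  obtain ⟨H, _, h2, h3⟩ := h
  exact ⟨H, bot_le, h2, h3⟩

lemma am_inv {u : k} (hu : u ≠ 0) : algebraMap k A u⁻¹ * algebraMap k A u = 1 := by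
  rw [← map_mul, inv_mul_cancel₀ hu, map_one]

/-- Deligne's conjecture for direct sums of inductions. -/
theorem conj_of_sumInd (hD : IsKnown D) {N : Subgroup G} {V : Type} [i1 : AddCommGroup V]
    [i2 : Module k V] {ρ : Representation k G V} (h : SumInd N V ρ) : D.crit V ρ → Conj D V ρ := by
  induction h with
  | ind V ρ h => exact fun hc => hD.hecke V ρ hc h.mono
  | add V ρ W W' hW hW' hcompl _ _ ih ih' =>
    intro hc
    obtain ⟨e, he⟩ := ih (hD.summand V ρ W hW hc)
    obtain ⟨e', he'⟩ := ih' (hD.summand V ρ W' hW' hc)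
    obtain ⟨u, hu, hcu⟩ := hD.mulc V ρ W W' hW hW' hc hcompl
    refine ⟨e * e' * u⁻¹, ?_⟩
    rw [hD.mulL V ρ W W' hW hW' hc hcompl, hcu, he, he', map_mul, map_mul]
    linear_combination (-(algebraMap k A e * algebraMap k A e' * D.c W (sub ρ W hW) *
      D.c W' (sub ρ W' hW'))) * am_inv (A := A) hu

/-- The nonvanishing version. -/
theorem conj_ne_zero (hD : IsKnown D) {N : Subgroup G}
    (hne : ∀ (V : Type) [AddCommGroup V] [Module k V] (ρ : Representation k G V), D.crit V ρ →
      IsInduced N ρ → D.L V ρ ≠ 0) {V : Type} [i1 : AddCommGroup V]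
    [i2 : Module k V] {ρ : Representation k G V} (h : SumInd N V ρ) : D.crit V ρ →
    ∃ e : k, e ≠ 0 ∧ D.L V ρ = algebraMap k A e * D.c V ρ := by
  induction h with
  | ind V ρ h =>
    intro hc
    obtain ⟨e, he⟩ := hD.hecke V ρ hc h.mono
    refine ⟨e, fun h0 => hne V ρ hc h ?_, he⟩
    rw [he, h0, map_zero, zero_mul]
  | add V ρ W W' hW hW' hcompl _ _ ih ih' =>
    intro hc
    obtain ⟨e, h0, he⟩ := ih (hD.summand V ρ W hW hc)
    obtain ⟨e', h0', he'⟩ := ih' (hD.summand V ρ W' hW' hc)
    obtain ⟨u, hu, hcu⟩ := hD.mulc V ρ W W' hW hW' hc hcompl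
    refine ⟨e * e' * u⁻¹, mul_ne_zero (mul_ne_zero h0 h0') (inv_ne_zero hu), ?_⟩
    rw [hD.mulL V ρ W W' hW hW' hc hcompl, hcu, he, he', map_mul, map_mul]
    linear_combination (-(algebraMap k A e * algebraMap k A e' * D.c W (sub ρ W hW) *
      D.c W' (sub ρ W' hW'))) * am_inv (A := A) hu

/-- Brauer's theorem for the representation `ρ`: it is isomorphic to a direct summand of a direct
sum of inductions, with a complement which is also a direct sum of inductions. -/
def Brauer (D : Sides k G A) (N : Subgroup G) (V : Type) [AddCommGroup V] [Module k V]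
    (ρ : Representation k G V) : Prop :=
  ∃ (P : Type) (_ : AddCommGroup P) (_ : Module k P) (σ : Representation k G P),
    D.crit P σ ∧ SumInd N P σ ∧ ∃ (W R : Submodule k P) (hW : Stable σ W) (hR : Stable σ R),
      IsCompl W R ∧ Iso ρ (sub σ W hW) ∧ SumInd N R (sub σ R hR)

/-- Deligne's conjecture if the values for the inductions are different from zero. -/
theorem conj_of_brauer (hD : IsKnown D) {N : Subgroup G}
    (hne : ∀ (V : Type) [AddCommGroup V] [Module k V] (ρ : Representation k G V), D.crit V ρ →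
      IsInduced N ρ → D.L V ρ ≠ 0) {V : Type} [AddCommGroup V] [Module k V]
    {ρ : Representation k G V} (hB : Brauer D N V ρ) :
    ∃ e : k, e ≠ 0 ∧ D.L V ρ = algebraMap k A e * D.c V ρ := by
  obtain ⟨P, _, _, σ, hc, hS, W, R, hW, hR, hcompl, hiso, hS'⟩ := hB
  obtain ⟨e, h0, he⟩ := conj_ne_zero hD hne hS hc
  obtain ⟨e', h0', he'⟩ := conj_ne_zero hD hne hS' (hD.summand P σ R hR hc)
  have hunit := hD.unit R (sub σ R hR) (hD.summand P σ R hR hc)
  obtain ⟨u, hu, hcu⟩ := hD.mulc P σ W R hW hR hc hcompl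
  obtain ⟨t, ht, hct⟩ := hD.isoc _ _ ρ _ hiso
  rw [hD.mulL P σ W R hW hR hc hcompl, hcu, he'] at he
  have h1 : D.L W (sub σ W hW) * algebraMap k A e' =
      algebraMap k A e * algebraMap k A u * D.c W (sub σ W hW) := by
    apply hunit.mul_right_cancel
    linear_combination he
  rw [hD.isoL _ _ ρ _ hiso, hct]
  refine ⟨e * u * e'⁻¹ * t⁻¹, mul_ne_zero (mul_ne_zero (mul_ne_zero h0 hu) (inv_ne_zero h0'))
    (inv_ne_zero ht), ?_⟩
  rw [map_mul, map_mul, map_mul]
  linear_combination (algebraMap k A e'⁻¹) * h1 - (D.L W (sub σ W hW)) * am_inv (A := A) h0' -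
    (algebraMap k A e * algebraMap k A u * algebraMap k A e'⁻¹ * D.c W (sub σ W hW)) *
      am_inv (A := A) ht

end main

open scoped TensorProduct in
/-- Descent of the field of coefficients. -/
theorem descent (E k B : Type) [Field E] [Field k] [Algebra E k] [CommRing B] [Algebra E B]
    (x y : B) (e : k) (h : (1 : k) ⊗ₜ[E] x = e ⊗ₜ[E] y) : ∃ e' : E, x = e' • y := by
  obtain ⟨g, hg⟩ : ∃ g : k →ₗ[E] E, g 1 = 1 := by
    obtain ⟨g, hg⟩ := LinearMap.exists_leftInverse_of_injective (Algebra.linearMap E k)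
      (LinearMap.ker_eq_bot.2 (algebraMap E k).injective)
    refine ⟨g, ?_⟩
    have := LinearMap.congr_fun hg 1
    simpa using this
  have h1 := congrArg (TensorProduct.lift (LinearMap.lsmul E B ∘ₗ g)) h
  rw [TensorProduct.lift.tmul, TensorProduct.lift.tmul] at h1
  refine ⟨g e, ?_⟩
  simpa [hg] using h1

end Pool.Agent.V2450.Deligne
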