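import Pool.Agent.V2450.Deligne.ModTwist

/-!
# Twists with Artin motives of totally real fields with supersolvable groups
-/

set_option autoImplicit false

open scoped Classical

namespace Pool.Agent.V2450.Deligne

variable {k G A : Type} [Field k] [Group G] [CommRing A] [Algebra k A]

/-- A value which is not zero: for every subfield `K ≠ ℚ` of the field of `N`, which belongs to `H`,
there is a twist with a reducible representation which is induced from a character of `K`, is a
direct sum of characters over the field of `N`, and whose value is not zero. -/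
def SomeValue {ι : Type} (D : ι → Sides k G A) (N : Subgroup G) : Prop :=
  ∀ H : Subgroup G, N ≤ H → H.index ≠ 0 → H ≠ ⊤ →
    ∃ (i : ι) (V : Type) (_ : AddCommGroup V) (_ : Module k V) (ρ : Representation k G V),
      (D i).crit V ρ ∧ IndFrom H ρ ∧ Ab ρ N ∧ (∃ W, Stable ρ W ∧ W ≠ ⊥ ∧ W ≠ ⊤) ∧ (D i).L V ρ ≠ 0

theorem conj_of_sumInd_lt {D : Sides k G A} (hD : Basic D) {N : Subgroup G} {d : ℕ}
    (hH : ∀ (V : Type) [AddCommGroup V] [Module k V] (ρ : Representation k G V), D.crit V ρ →
      IsInduced N ρ → Module.finrank k V < d → Conj D V ρ) {V : Type} [i1 : AddCommGroup V]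
    [i2 : Module k V] {ρ : Representation k G V} (h : SumInd N V ρ) : D.crit V ρ →
      Module.finrank k V < d → Conj D V ρ := by
  induction h with
  | ind V ρ h => exact fun hc hd => hH V ρ hc h hd
  | add V ρ W W' hW hW' hcompl _ _ ih ih' =>
    intro hc hd
    have := hD.finite V ρ hc
    obtain ⟨e, he⟩ := ih (hD.summand V ρ W hW hc) ((Submodule.finrank_le W).trans_lt hd)
    obtain ⟨e', he'⟩ := ih' (hD.summand V ρ W' hW' hc) ((Submodule.finrank_le W').trans_lt hd)
    obtain ⟨u, hu, hcu⟩ := hD.mulc V ρ W W' hW hW' hc hcompl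
    refine ⟨e * e' * u⁻¹, ?_⟩
    rw [hD.mulL V ρ W W' hW hW' hc hcompl, hcu, he, he', map_mul, map_mul]
    linear_combination (-(algebraMap k A e * algebraMap k A e' * D.c W (sub ρ W hW) *
      D.c W' (sub ρ W' hW'))) * am_inv (A := A) hu

theorem sumInd_basic [IsAlgClosed k] {D : Sides k G A} (hD : Basic D) (N : Subgroup G) [N.Normal]
    (hQ : Supersolvable (G ⧸ N)) (V : Type) [AddCommGroup V] [Module k V]
    (ρ : Representation k G V) (hc : D.crit V ρ) (hV : Nontrivial V) (hab : Ab ρ N) :
    SumInd N V ρ := by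
  let D0 : Sides k G A := ⟨D.crit, fun _ _ _ _ => 0, fun _ _ _ _ => 1⟩
  have hD0 : IsKnown D0 :=
    { finite := hD.finite
      summand := hD.summand
      semisimple := hD.semisimple
      mulL := by
        intro V _ _ ρ W W' h h' _ _
        exact (mul_zero _).symm
      mulc := by
        intro V _ _ ρ W W' h h' _ _
        refine ⟨1, one_ne_zero, ?_⟩
        change (1 : A) = algebraMap k A 1 * (1 * 1)
        rw [map_one, mul_one, mul_one]
      unit := by
        intro V _ _ ρ _
        exact isUnit_one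
      isoL := by
        intro V V' _ _ _ _ ρ ρ' _
        rfl
      isoc := by
        intro V V' _ _ _ _ ρ ρ' _
        refine ⟨1, one_ne_zero, ?_⟩
        change (1 : A) = algebraMap k A 1 * 1
        rw [map_one, mul_one]
      hecke := by
        intro V _ _ ρ _ _
        refine ⟨0, ?_⟩
        change (0 : A) = algebraMap k A 0 * 1
        rw [map_zero, zero_mul] }
  exact sumInd (D := D0) hD0 N hQ _ V ρ hc hV hab rfl

theorem conj_super [IsAlgClosed k] {ι : Type} {D : ι → Sides k G A} (hD : IsModular D)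
    (N : Subgroup G) [N.Normal] (hQ : Supersolvable (G ⧸ N)) (hne : SomeValue D N) (d : ℕ) :
    ∀ H : Subgroup G, N ≤ H → H.index ≠ 0 → H.index = d →
    ∀ (i : ι) (V : Type) [AddCommGroup V] [Module k V] (ρ : Representation k G V),
      (D i).crit V ρ → IndFrom H ρ → Conj (D i) V ρ := by
  induction d using Nat.strong_induction_on with
  | _ d ih =>
    intro H hN hi hd
    by_cases htop : H = ⊤
    · subst htop
      exact hD.dirichlet
    · obtain ⟨j, V0, _, _, ρ0, hc0, h0, hab0, ⟨W, hW, hW0, hW1⟩, hL⟩ := hne H hN hi htop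
      have hfin := (hD.basic j).finite V0 ρ0 hc0
      have hdim : Module.finrank k V0 = d := by
        obtain ⟨b, _⟩ := h0
        rw [Module.finrank_eq_nat_card_basis b]
        exact hd
      obtain ⟨W', hW', hcompl⟩ := (hD.basic j).semisimple V0 ρ0 W hW hc0
      have hab' : ∀ (U : Submodule k V0) (hU : Stable ρ0 U), Ab (sub ρ0 U hU) N := by
        intro U hU x hx y hy
        ext w
        change ρ0 (x * y) (w : V0) = ρ0 (y * x) (w : V0)
        rw [hab0 x hx y hy]
      have hW'0 : W' ≠ ⊥ := by
        intro h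
        rw [h] at hcompl
        exact hW1 (eq_top_of_isCompl_bot hcompl)
      have hW'1 : W' ≠ ⊤ := by
        intro h
        rw [h] at hcompl
        exact hW0 (eq_bot_of_isCompl_top hcompl)
      have key : ∀ (U : Submodule k V0) (hU : Stable ρ0 U), U ≠ ⊥ → U ≠ ⊤ →
          Conj (D j) U (sub ρ0 U hU) := by
        intro U hU hU0 hU1
        have hcU := (hD.basic j).summand V0 ρ0 U hU hc0
        have hs := sumInd_basic (hD.basic j) N hQ U (sub ρ0 U hU) hcU
          (Submodule.nontrivial_iff_ne_bot.2 hU0) (hab' U hU)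
        refine conj_of_sumInd_lt (hD.basic j) ?_ hs hcU
          (lt_of_lt_of_eq (Submodule.finrank_lt hU1) hdim)
        intro V1 _ _ ρ1 hc1 hind hlt
        obtain ⟨H1, hNH, hi1, b1, hb1⟩ := hind
        refine ih H1.index ?_ H1 hNH hi1 rfl j V1 ρ1 hc1 ⟨b1, hb1⟩
        rw [Module.finrank_eq_nat_card_basis b1] at hlt
        exact hlt
      obtain ⟨e, he⟩ := key W hW hW0 hW1
      obtain ⟨e', he'⟩ := key W' hW' hW'0 hW'1
      obtain ⟨t, ht, hct⟩ := (hD.basic j).mulc V0 ρ0 W W' hW hW' hc0 hcompl
      have he0 : (D j).L V0 ρ0 = algebraMap k A (e * e' * t⁻¹) * (D j).c V0 ρ0 := by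
        rw [(hD.basic j).mulL V0 ρ0 W W' hW hW' hc0 hcompl, hct, he, he', map_mul, map_mul]
        linear_combination (-(algebraMap k A e * algebraMap k A e' * (D j).c W (sub ρ0 W hW) *
          (D j).c W' (sub ρ0 W' hW'))) * am_inv (A := A) ht
      obtain ⟨u, hu⟩ := hD.shimura H hi
      obtain ⟨e1, he1⟩ := hu j V0 ρ0 hc0 h0
      have hunit := (hD.basic j).unit V0 ρ0 hc0
      have h1 : algebraMap k A (e * e' * t⁻¹) = algebraMap k A e1 * u := by
        apply hunit.mul_right_cancel
        rw [← he0, ← he1]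
      have h2 : e1 ≠ 0 := by
        intro h3
        apply hL
        rw [he1, h3, map_zero, zero_mul, zero_mul]
      intro i V _ _ ρ hc h
      obtain ⟨a, ha⟩ := hu i V ρ hc h
      refine ⟨a * (e1⁻¹ * (e * e' * t⁻¹)), ?_⟩
      rw [ha, map_mul, map_mul, h1]
      linear_combination (-(algebraMap k A a * u * (D i).c V ρ)) * am_inv (A := A) h2

/-- The values for the twists with representations which are abelian over a supersolvable
extension. -/
theorem conj_modular_super [IsAlgClosed k] {ι : Type} {D : ι → Sides k G A} (hD : IsModular D)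
    (N : Subgroup G) [N.Normal] (hQ : Supersolvable (G ⧸ N)) (hne : SomeValue D N) (i : ι)
    (V : Type) [AddCommGroup V] [Module k V] (ρ : Representation k G V) (hc : (D i).crit V ρ)
    (hV : Nontrivial V) (hab : Ab ρ N) : SumInd N V ρ ∧ Conj (D i) V ρ := by
  have h := sumInd_basic (hD.basic i) N hQ V ρ hc hV hab
  refine ⟨h, conj_of_sumInd' (hD.basic i) ?_ h hc⟩
  intro V _ _ ρ hc hind
  obtain ⟨H, hNH, hi, hb⟩ := hind
  exact conj_super hD N hQ hne _ H hNH hi rfl i V ρ hc hb

end Pool.Agent.V2450.Deligne
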