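import Pool.Agent.V2450.Deligne.Main

/-!
# Twists with characters
-/

set_option autoImplicit false

open scoped Classical

namespace Pool.Agent.V2450.Deligne

section tw

variable {k G : Type} [Field k] [Group G] {V : Type} [AddCommGroup V] [Module k V]

/-- The twist of the representation `ρ` with the character `ψ`. -/
def tw (ρ : Representation k G V) (ψ : G →* kˣ) : Representation k G V where
  toFun g := (ψ g : k) • ρ g
  map_one' := by simp
  map_mul' g h := by
    rw [map_mul, map_mul, Units.val_mul, smul_mul_smul_comm]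

lemma ab_tw {ρ : Representation k G V} {N : Subgroup G} (h : Ab ρ N) (ψ : G →* kˣ) :
    Ab (tw ρ ψ) N := by
  intro x hx y hy
  change (ψ (x * y) : k) • ρ (x * y) = (ψ (y * x) : k) • ρ (y * x)
  have h1 : ψ (x * y) = ψ (y * x) := by rw [map_mul, map_mul, mul_comm]
  rw [h x hx y hy, h1]

end tw

/-- The families of complex numbers which are indexed by the embeddings of `k`. -/
def Emb (k : Type) [Field k] : Type := (k →+* ℂ) → ℂ

noncomputable instance (k : Type) [Field k] : CommRing (Emb k) :=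
  inferInstanceAs (CommRing ((k →+* ℂ) → ℂ))

/-- The element `e` of `k` gives the family of the `σ e`. -/
noncomputable instance (k : Type) [Field k] : Algebra k (Emb k) :=
  (RingHom.pi fun σ : k →+* ℂ => σ : k →+* ((k →+* ℂ) → ℂ)).toAlgebra

lemma emb_apply {k : Type} [Field k] (e : k) (σ : k →+* ℂ) : algebraMap k (Emb k) e σ = σ e := rfl

lemma emb_mul {k : Type} [Field k] (x y : Emb k) (σ : k →+* ℂ) : (x * y) σ = x σ * y σ := rfl

/-- The field generated by the values of a character. -/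
def valField {G K : Type} [Group G] [Field K] (ψ : G →* Kˣ) : Subfield K :=
  Subfield.closure (Set.range fun g => (ψ g : K))

/-- The conjugate of a character. -/
def conjChar {G k K : Type} [Group G] [Field k] [Field K] (σ : k →+* K) (ψ : G →* kˣ) : G →* Kˣ :=
  (Units.map (σ : k →* K)).comp ψ

section main

variable {k G : Type} [Field k] [Group G]

/-- The normalized values `Λ (ψ)` of the twists of `ρ` with the characters `ψ ∈ X`: the twists are
critical and up to a factor in `k` the number `Λ (σ ψ)` is the quotient of the value of the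
`L`-function and the period. -/
structure IsTwisted (D : Sides k G (Emb k)) (V : Type) [AddCommGroup V] [Module k V]
    (ρ : Representation k G V) (X : Set (G →* kˣ)) (Λ : (G →* ℂˣ) → ℂ) : Prop where
  crit : ∀ ψ ∈ X, D.crit V (tw ρ ψ)
  value : ∀ ψ ∈ X, ∃ u : k, ∀ σ : k →+* ℂ,
    Λ (conjChar σ ψ) * D.c V (tw ρ ψ) σ = σ u * D.L V (tw ρ ψ) σ

lemma exists_value {D : Sides k G (Emb k)} (hD : IsKnown D) {V : Type}
    [AddCommGroup V] [Module k V] {ρ : Representation k G V}
    {X : Set (G →* kˣ)} {Λ : (G →* ℂˣ) → ℂ} (h : IsTwisted D V ρ X Λ) {ψ : G →* kˣ} (hψ : ψ ∈ X)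
    (hconj : Conj D V (tw ρ ψ)) : ∃ e : k, ∀ σ : k →+* ℂ, Λ (conjChar σ ψ) = σ e := by
  have hc := h.crit ψ hψ
  obtain ⟨e, he⟩ := hconj
  obtain ⟨u, hu⟩ := h.value ψ hψ
  refine ⟨u * e, fun σ => ?_⟩
  have h1 : D.c V (tw ρ ψ) σ ≠ 0 := by
    obtain ⟨d, hd⟩ := hD.unit V (tw ρ ψ) hc
    intro h0
    have h2 : (D.c V (tw ρ ψ) * ↑d⁻¹ : Emb k) σ = 1 := by
      rw [← hd, Units.mul_inv]
      rfl
    rw [emb_mul, h0, zero_mul] at h2
    exact zero_ne_one h2
  have h2 := hu σ
  rw [he, emb_mul, emb_apply, ← mul_assoc, ← map_mul] at h2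
  exact mul_right_cancel₀ h1 h2

lemma mem_valField [CharZero k] [IsAlgClosed k] [Algebra.IsAlgebraic ℚ k] {ψ : G →* kˣ} {e : k}
    {Λ : (G →* ℂˣ) → ℂ} (h : ∀ σ : k →+* ℂ, Λ (conjChar σ ψ) = σ e) (σ : k →+* ℂ) :
    Λ (conjChar σ ψ) ∈ valField (conjChar σ ψ) := by
  have hval : valField (conjChar σ ψ) = (valField ψ).map σ := by
    unfold valField
    rw [RingHom.map_field_closure, ← Set.range_comp]
    rfl
  rw [h σ, hval]
  refine ⟨e, ?_, rfl⟩
  have : IsAlgClosure (valField ψ) k :=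
    ⟨inferInstance, Algebra.IsAlgebraic.tower_top (K := ℚ) (valField ψ)⟩
  have : Algebra.IsAlgebraic (valField ψ) k := IsAlgClosure.isAlgebraic
  have : IsGalois (valField ψ) k := { }
  have key : e ∈ Set.range (algebraMap (valField ψ) k) := by
    rw [InfiniteGalois.mem_range_algebraMap_iff_fixed]
    intro f
    have h1 := h σ
    have h2 := h (σ.comp (f : k →+* k))
    have h3 : conjChar (σ.comp (f : k →+* k)) ψ = conjChar σ ψ := by
      ext g
      change σ (f (ψ g : k)) = σ (ψ g : k)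
      have : (ψ g : k) ∈ valField ψ := Subfield.subset_closure ⟨g, rfl⟩
      have h4 : f (ψ g : k) = (ψ g : k) := f.commutes ⟨(ψ g : k), this⟩
      rw [h4]
    rw [h3, h1] at h2
    exact (σ.injective h2).symm
  obtain ⟨x, hx⟩ := key
  rw [← hx]
  exact x.2

/-- The two assertions on the numbers `Λ (ψ)`. -/
theorem twists [CharZero k] [IsAlgClosed k] [Algebra.IsAlgebraic ℚ k] {D : Sides k G (Emb k)}
    (hD : IsKnown D) {V : Type} [AddCommGroup V] [Module k V] {ρ : Representation k G V}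
    {X : Set (G →* kˣ)} {Λ : (G →* ℂˣ) → ℂ} (h : IsTwisted D V ρ X Λ)
    (hconj : ∀ ψ ∈ X, Conj D V (tw ρ ψ)) : ∀ ψ ∈ X, ∀ σ : k →+* ℂ,
      Λ (conjChar σ ψ) ∈ valField (conjChar σ ψ) ∧
        ∀ g : ℂ →+* ℂ, g (Λ (conjChar σ ψ)) = Λ (conjChar g (conjChar σ ψ)) := by
  intro ψ hψ σ
  obtain ⟨e, he⟩ := exists_value hD h hψ (hconj ψ hψ)
  refine ⟨mem_valField he σ, fun g => ?_⟩
  have h1 : conjChar g (conjChar σ ψ) = conjChar (g.comp σ) ψ := rfl
  rw [h1, he, he]
  rfl

end main

end Pool.Agent.V2450.Deligne
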