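import Pool.Agent.V2450.Deligne.Modular
import Pool.Agent.V2450.Deligne.Twist

/-!
# Twists of twists of modular abelian varieties
-/

set_option autoImplicit false

open scoped Classical

namespace Pool.Agent.V2450.Deligne

variable {k G : Type} [Field k] [Group G]

lemma exists_value' {D : Sides k G (Emb k)} (hD : Basic D) {V : Type}
    [AddCommGroup V] [Module k V] {ρ : Representation k G V}
    {X : Set (G →* kˣ)} {Λ : (G →* ℂˣ) → ℂ} (h : IsTwisted D V ρ X Λ) {ψ : G →* kˣ} (hψ : ψ ∈ X)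
    (hconj : Conj D V (tw ρ ψ)) : ∃ e : k, ∀ σ : k →+* ℂ, Λ (conjChar σ ψ) = σ e := by
  have hc := h.crit ψ hψ
  obtain ⟨e, he⟩ := hconj
  obtain ⟨u, hu⟩ := h.value ψ hψ
  refine ⟨u * e, fun σ => ?_⟩
  have h1 : D.c V (tw ρ ψ) σ ≠ 0 := by
    obtain ⟨d, hd⟩ := hD.unit V (tw ρ ψ) hc
    intro h0
    have h2 : (D.c V (tw ρ ψ) * ↑d⁻¹ : Emb k) σ = 1 := by
      rw [← hd, Units.mul_inv]
      rfl
    rw [emb_mul, h0, zero_mul] at h2
    exact zero_ne_one h2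
  have h2 := hu σ
  rw [he, emb_mul, emb_apply, ← mul_assoc, ← map_mul] at h2
  exact mul_right_cancel₀ h1 h2

/-- The two assertions on the numbers `Λ (ψ)`. -/
theorem twists' [CharZero k] [IsAlgClosed k] [Algebra.IsAlgebraic ℚ k] {D : Sides k G (Emb k)}
    (hD : Basic D) {V : Type} [AddCommGroup V] [Module k V] {ρ : Representation k G V}
    {X : Set (G →* kˣ)} {Λ : (G →* ℂˣ) → ℂ} (h : IsTwisted D V ρ X Λ)
    (hconj : ∀ ψ ∈ X, Conj D V (tw ρ ψ)) : ∀ ψ ∈ X, ∀ σ : k →+* ℂ,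
      Λ (conjChar σ ψ) ∈ valField (conjChar σ ψ) ∧
        ∀ g : ℂ →+* ℂ, g (Λ (conjChar σ ψ)) = Λ (conjChar g (conjChar σ ψ)) := by
  intro ψ hψ σ
  obtain ⟨e, he⟩ := exists_value' hD h hψ (hconj ψ hψ)
  refine ⟨mem_valField he σ, fun g => ?_⟩
  have h1 : conjChar g (conjChar σ ψ) = conjChar (g.comp σ) ψ := rfl
  rw [h1, he, he]
  rfl

end Pool.Agent.V2450.Deligne
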