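import Pool.Agent.V2450.Deligne.Nil

/-!
# Twists of a fixed motive with Artin motives of totally real fields with nilpotent groups
-/

set_option autoImplicit false

open scoped Classical

namespace Pool.Agent.V2450.Deligne

section defs

variable {k : Type} [Field k] {G : Type} [Group G]

/-- The representation is induced from a character of the subgroup `H`: there is a basis `b` of
`V`, indexed by `G ⧸ H`, such that `g` maps the line of `b x` to the line of `b (g x)`. -/
def IndFrom (H : Subgroup G) {V : Type} [AddCommGroup V] [Module k V]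
    (ρ : Representation k G V) : Prop :=
  ∃ b : Module.Basis (G ⧸ H) k V, ∀ (g : G) (x : G ⧸ H), ∃ a : k, ρ g (b x) = a • b (g • x)

/-- The direct sums of representations which are induced from characters of `H`. -/
inductive SumFrom (H : Subgroup G) :
    ∀ (V : Type) [AddCommGroup V] [Module k V], Representation k G V → Prop
  | ind (V : Type) [AddCommGroup V] [Module k V] (ρ : Representation k G V) :
      IndFrom H ρ → SumFrom H V ρ
  | add (V : Type) [AddCommGroup V] [Module k V] (ρ : Representation k G V) (W W' : Submodule k V)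
      (hW : Stable ρ W) (hW' : Stable ρ W') : IsCompl W W' → SumFrom H W (sub ρ W hW) →
      SumFrom H W' (sub ρ W' hW') → SumFrom H V ρ

/-- `H'` is a normal subgroup of `H` and `H ⧸ H'` is cyclic. -/
def CyclicStep (H' H : Subgroup G) : Prop :=
  ∃ x ∈ Subgroup.normalizer (H' : Set G), H = H' ⊔ Subgroup.zpowers x

end defs

section main

variable {k G A : Type} [Field k] [Group G] [CommRing A] [Algebra k A]

/-- The known formal facts. -/
structure Basic (D : Sides k G A) : Prop where
  finite : ∀ (V : Type) [AddCommGroup V] [Module k V] (ρ : Representation k G V), D.crit V ρ →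
    FiniteDimensional k V
  summand : ∀ (V : Type) [AddCommGroup V] [Module k V] (ρ : Representation k G V)
    (W : Submodule k V) (h : Stable ρ W), D.crit V ρ → D.crit W (sub ρ W h)
  semisimple : ∀ (V : Type) [AddCommGroup V] [Module k V] (ρ : Representation k G V)
    (W : Submodule k V), Stable ρ W → D.crit V ρ → ∃ W' : Submodule k V, Stable ρ W' ∧ IsCompl W W'
  mulL : ∀ (V : Type) [AddCommGroup V] [Module k V] (ρ : Representation k G V)
    (W W' : Submodule k V) (h : Stable ρ W) (h' : Stable ρ W'), D.crit V ρ → IsCompl W W' →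
    D.L V ρ = D.L W (sub ρ W h) * D.L W' (sub ρ W' h')
  mulc : ∀ (V : Type) [AddCommGroup V] [Module k V] (ρ : Representation k G V)
    (W W' : Submodule k V) (h : Stable ρ W) (h' : Stable ρ W'), D.crit V ρ → IsCompl W W' →
    ∃ u : k, u ≠ 0 ∧
      D.c V ρ = algebraMap k A u * (D.c W (sub ρ W h) * D.c W' (sub ρ W' h'))
  unit : ∀ (V : Type) [AddCommGroup V] [Module k V] (ρ : Representation k G V), D.crit V ρ →
    IsUnit (D.c V ρ)

/-- The known facts on the values of the twists `M ⊗ ρ` for the pairs `i` (of an integer and a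
quadratic character). -/
structure IsModular {ι : Type} (D : ι → Sides k G A) : Prop where
  basic : ∀ i, Basic (D i)
  /-- the case of the base field `ℚ` (twists with Dirichlet characters) -/
  dirichlet : ∀ (i : ι) (V : Type) [AddCommGroup V] [Module k V] (ρ : Representation k G V),
    (D i).crit V ρ → IndFrom (⊤ : Subgroup G) ρ → Conj (D i) V ρ
  /-- for every field `K` there is a number `u` such that Deligne's conjecture is true up to the
  factor `u` for all `i` and all twists with `Ind χ`, for the characters `χ` of `K` -/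
  shimura : ∀ H : Subgroup G, H.index ≠ 0 → ∃ u : A, ∀ (i : ι) (V : Type) [AddCommGroup V]
    [Module k V] (ρ : Representation k G V), (D i).crit V ρ → IndFrom H ρ →
    ∃ e : k, (D i).L V ρ = algebraMap k A e * u * (D i).c V ρ

/-- A value which is not zero: for subfields `K ⊆ K'` of the field `L` of `N`, which belong to
`H ≥ H'`, with `K'` cyclic over `K`, there is a twist with a representation `ρ` which is induced from
a character of `K'`, is a direct sum of representations induced from characters of `K`, and whose
value is not zero. -/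
def NonVanishing {ι : Type} (D : ι → Sides k G A) (N : Subgroup G) : Prop :=
  ∀ H' H : Subgroup G, N ≤ H' → H'.index ≠ 0 → CyclicStep H' H →
    ∃ (i : ι) (V : Type) (_ : AddCommGroup V) (_ : Module k V) (ρ : Representation k G V),
      (D i).crit V ρ ∧ IndFrom H' ρ ∧ SumFrom H V ρ ∧ (D i).L V ρ ≠ 0

theorem conj_of_sumFrom {D : Sides k G A} (hD : Basic D) {H : Subgroup G}
    (hH : ∀ (V : Type) [AddCommGroup V] [Module k V] (ρ : Representation k G V), D.crit V ρ →
      IndFrom H ρ → Conj D V ρ) {V : Type} [i1 : AddCommGroup V]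
    [i2 : Module k V] {ρ : Representation k G V} (h : SumFrom H V ρ) : D.crit V ρ → Conj D V ρ := by
  induction h with
  | ind V ρ h => exact fun hc => hH V ρ hc h
  | add V ρ W W' hW hW' hcompl _ _ ih ih' =>
    intro hc
    obtain ⟨e, he⟩ := ih (hD.summand V ρ W hW hc)
    obtain ⟨e', he'⟩ := ih' (hD.summand V ρ W' hW' hc)
    obtain ⟨u, hu, hcu⟩ := hD.mulc V ρ W W' hW hW' hc hcompl
    refine ⟨e * e' * u⁻¹, ?_⟩
    rw [hD.mulL V ρ W W' hW hW' hc hcompl, hcu, he, he', map_mul, map_mul]
    linear_combination (-(algebraMap k A e * algebraMap k A e' * D.c W (sub ρ W hW) *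
      D.c W' (sub ρ W' hW'))) * am_inv (A := A) hu

theorem conj_of_sumInd' {D : Sides k G A} (hD : Basic D) {N : Subgroup G}
    (hH : ∀ (V : Type) [AddCommGroup V] [Module k V] (ρ : Representation k G V), D.crit V ρ →
      IsInduced N ρ → Conj D V ρ) {V : Type} [i1 : AddCommGroup V]
    [i2 : Module k V] {ρ : Representation k G V} (h : SumInd N V ρ) : D.crit V ρ → Conj D V ρ := by
  induction h with
  | ind V ρ h => exact fun hc => hH V ρ hc h
  | add V ρ W W' hW hW' hcompl _ _ ih ih' =>
    intro hc
    obtain ⟨e, he⟩ := ih (hD.summand V ρ W hW hc)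
    obtain ⟨e', he'⟩ := ih' (hD.summand V ρ W' hW' hc)
    obtain ⟨u, hu, hcu⟩ := hD.mulc V ρ W W' hW hW' hc hcompl
    refine ⟨e * e' * u⁻¹, ?_⟩
    rw [hD.mulL V ρ W W' hW hW' hc hcompl, hcu, he, he', map_mul, map_mul]
    linear_combination (-(algebraMap k A e * algebraMap k A e' * D.c W (sub ρ W hW) *
      D.c W' (sub ρ W' hW'))) * am_inv (A := A) hu

/-- One step: from `K` to the cyclic extension `K'`. -/
theorem conj_step {ι : Type} {D : ι → Sides k G A} (hD : IsModular D) {N : Subgroup G}
    (hne : NonVanishing D N) {H' H : Subgroup G} (hNH : N ≤ H') (hi : H'.index ≠ 0) (hs : CyclicStep H' H)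
    (hH : ∀ (i : ι) (V : Type) [AddCommGroup V] [Module k V] (ρ : Representation k G V),
      (D i).crit V ρ → IndFrom H ρ → Conj (D i) V ρ)
    (i : ι) (V : Type) [AddCommGroup V] [Module k V] (ρ : Representation k G V)
    (hc : (D i).crit V ρ) (h : IndFrom H' ρ) : Conj (D i) V ρ := by
  obtain ⟨u, hu⟩ := hD.shimura H' hi
  obtain ⟨j, V0, _, _, ρ0, hc0, h0, hsum, hL⟩ := hne H' H hNH hi hs
  obtain ⟨e0, he0⟩ := conj_of_sumFrom (hD.basic j) (fun V _ _ ρ hc h => hH j V ρ hc h) hsum hc0
  obtain ⟨e1, he1⟩ := hu j V0 ρ0 hc0 h0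
  obtain ⟨e, he⟩ := hu i V ρ hc h
  have hunit := (hD.basic j).unit V0 ρ0 hc0
  have h1 : algebraMap k A e0 = algebraMap k A e1 * u := by
    apply hunit.mul_right_cancel
    rw [← he0, ← he1]
  have h2 : e1 ≠ 0 := by
    intro h3
    apply hL
    rw [he1, h3, map_zero, zero_mul, zero_mul]
  refine ⟨e * (e1⁻¹ * e0), ?_⟩
  rw [he, map_mul, map_mul, h1]
  linear_combination (-(algebraMap k A e * u * (D i).c V ρ)) * am_inv (A := A) h2

/-- Subgroups with a nilpotent quotient are joined to the group by cyclic steps. -/
theorem conj_subgroup {ι : Type} {D : ι → Sides k G A} (hD : IsModular D)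
    (N : Subgroup G) (hne : NonVanishing D N) [N.Normal] [Group.IsNilpotent (G ⧸ N)] (d : ℕ) :
    ∀ H : Subgroup G, N ≤ H → H.index ≠ 0 → H.index = d →
    ∀ (i : ι) (V : Type) [AddCommGroup V] [Module k V] (ρ : Representation k G V),
      (D i).crit V ρ → IndFrom H ρ → Conj (D i) V ρ := by
  induction d using Nat.strong_induction_on with
  | _ d ih =>
    intro H hN hi hd
    by_cases htop : H = ⊤
    · subst htop
      exact hD.dirichlet
    · have hmap : H.map (QuotientGroup.mk' N) ≠ ⊤ := by
        intro h
        apply htop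
        have h1 := congrArg (Subgroup.comap (QuotientGroup.mk' N)) h
        rw [Subgroup.comap_map_eq, QuotientGroup.ker_mk', Subgroup.comap_top, sup_of_le_left hN] at h1
        exact h1
      have hnc := Group.normalizerCondition_of_isNilpotent (G := G ⧸ N) _ (lt_top_iff_ne_top.2 hmap)
      obtain ⟨y, hy1, hy2⟩ := Set.exists_of_ssubset hnc
      obtain ⟨x, rfl⟩ := QuotientGroup.mk'_surjective N y
      have hxH : x ∉ H := fun h => hy2 ⟨x, h, rfl⟩
      have hmem : ∀ g : G, QuotientGroup.mk' N g ∈ H.map (QuotientGroup.mk' N) ↔ g ∈ H := by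
        intro g
        constructor
        · rintro ⟨g', hg', he⟩
          have h2 : g'⁻¹ * g ∈ N := QuotientGroup.eq.1 he
          have h4 : g = g' * (g'⁻¹ * g) := by group
          rw [h4]
          exact mul_mem hg' (hN h2)
        · exact fun h => ⟨g, h, rfl⟩
      have hxN : x ∈ Subgroup.normalizer (H : Set G) := by
        rw [Subgroup.mem_normalizer_iff]
        intro h
        have h1 := (Subgroup.mem_normalizer_iff.1 hy1) (QuotientGroup.mk' N h)
        have h2 := hmem h
        have h3 := hmem (x * h * x⁻¹)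
        rw [map_mul, map_mul, map_inv] at h3
        exact h2.symm.trans (h1.trans h3)
      have hlt : H < H ⊔ Subgroup.zpowers x := by
        refine lt_of_le_of_ne le_sup_left fun h => hxH ?_
        rw [h]
        exact Subgroup.mem_sup_right (Subgroup.mem_zpowers x)
      have hi' : (H ⊔ Subgroup.zpowers x).index ≠ 0 := fun h0 =>
        hi (Nat.eq_zero_of_zero_dvd (h0 ▸ Subgroup.index_dvd_of_le hlt.le))
      have : H.FiniteIndex := ⟨hi⟩
      have hidx : (H ⊔ Subgroup.zpowers x).index < H.index := Subgroup.index_strictAnti hlt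
      exact conj_step hD hne hN hi ⟨x, hxN, rfl⟩
        (ih _ (hd ▸ hidx) _ (hN.trans hlt.le) hi' rfl)

/-- The values for the twists with representations which are abelian over a nilpotent extension. -/
theorem conj_modular [IsAlgClosed k] {ι : Type} {D : ι → Sides k G A} (hD : IsModular D)
    (N : Subgroup G) (hne : NonVanishing D N) [N.Normal] [Finite (G ⧸ N)]
    [Group.IsNilpotent (G ⧸ N)] (i : ι) (V : Type) [AddCommGroup V] [Module k V]
    (ρ : Representation k G V) (hc : (D i).crit V ρ) (hV : Nontrivial V) (hab : Ab ρ N) :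
    SumInd N V ρ ∧ Conj (D i) V ρ := by
  let D0 : Sides k G A := ⟨(D i).crit, fun _ _ _ _ => 0, fun _ _ _ _ => 1⟩
  have hD0 : IsKnown D0 :=
    { finite := (hD.basic i).finite
      summand := (hD.basic i).summand
      semisimple := (hD.basic i).semisimple
      mulL := by
        intro V _ _ ρ W W' h h' _ _
        exact (mul_zero _).symm
      mulc := by
        intro V _ _ ρ W W' h h' _ _
        refine ⟨1, one_ne_zero, ?_⟩
        change (1 : A) = algebraMap k A 1 * (1 * 1)
        rw [map_one, mul_one, mul_one]
      unit := by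
        intro V _ _ ρ _
        exact isUnit_one
      isoL := by
        intro V V' _ _ _ _ ρ ρ' _
        rfl
      isoc := by
        intro V V' _ _ _ _ ρ ρ' _
        refine ⟨1, one_ne_zero, ?_⟩
        change (1 : A) = algebraMap k A 1 * 1
        rw [map_one, mul_one]
      hecke := by
        intro V _ _ ρ _ _
        refine ⟨0, ?_⟩
        change (0 : A) = algebraMap k A 0 * 1
        rw [map_zero, zero_mul] }
  have hQ : Supersolvable (G ⧸ N) := super_of_nilp _ _ rfl
  have h := sumInd (D := D0) hD0 N hQ _ V ρ hc hV hab rfl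
  refine ⟨h, conj_of_sumInd' (hD.basic i) ?_ h hc⟩
  intro V _ _ ρ hc hind
  obtain ⟨H, hNH, hi, hb⟩ := hind
  exact conj_subgroup hD N hne _ H hNH hi rfl i V ρ hc hb

end main

end Pool.Agent.V2450.Deligne
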