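import Mathlib

/-!
# Representations which are abelian on a normal subgroup with supersolvable quotient
-/

set_option autoImplicit false

open scoped Classical

namespace Pool.Agent.V2450.Deligne

universe u v

variable {k : Type u} [Field k]

section basic

variable {G : Type v} [Group G] {V : Type u} [AddCommGroup V] [Module k V]

/-- The subspace is stable. -/
def Stable (ρ : Representation k G V) (W : Submodule k V) : Prop :=
  ∀ g : G, ∀ w ∈ W, ρ g w ∈ W

/-- The representation on a stable subspace. -/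
def sub (ρ : Representation k G V) (W : Submodule k V) (h : Stable ρ W) :
    Representation k G W where
  toFun g := (ρ g).restrict (h g)
  map_one' := by
    ext w
    simp
  map_mul' g g' := by
    ext w
    simp

lemma sub_apply (ρ : Representation k G V) (W : Submodule k V) (h : Stable ρ W) (g : G) (w : W) :
    ((sub ρ W h g w : W) : V) = ρ g w := rfl

lemma inv_apply (ρ : Representation k G V) (g : G) (v : V) : ρ g⁻¹ (ρ g v) = v := by
  rw [← Module.End.mul_apply, ← map_mul, inv_mul_cancel, map_one, Module.End.one_apply]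

lemma apply_inv (ρ : Representation k G V) (g : G) (v : V) : ρ g (ρ g⁻¹ v) = v := by
  rw [← Module.End.mul_apply, ← map_mul, mul_inv_cancel, map_one, Module.End.one_apply]

lemma mul_app (ρ : Representation k G V) (g h : G) (v : V) : ρ (g * h) v = ρ g (ρ h v) := by
  rw [map_mul, Module.End.mul_apply]

/-- The group elements for which `v` is an eigenvector. -/
def lineStab (ρ : Representation k G V) (v : V) : Subgroup G where
  carrier := {g | ∃ a : k, ρ g v = a • v}
  one_mem' := ⟨1, by simp⟩
  mul_mem' := by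
    rintro g h ⟨a, ha⟩ ⟨b, hb⟩
    exact ⟨b * a, by rw [mul_app, hb, map_smul, ha, smul_smul]⟩
  inv_mem' := by
    rintro g ⟨a, ha⟩
    have h1 : v = a • ρ g⁻¹ v := by rw [← map_smul, ← ha, inv_apply]
    by_cases h0 : a = 0
    · have : v = 0 := by rw [h1, h0, zero_smul]
      exact ⟨0, by rw [this]; simp⟩
    · refine ⟨a⁻¹, ?_⟩
      conv_rhs => rw [h1]
      rw [smul_smul, inv_mul_cancel₀ h0, one_smul]

lemma mem_lineStab (ρ : Representation k G V) (v : V) (g : G) :
    g ∈ lineStab ρ v ↔ ∃ a : k, ρ g v = a • v := Iff.rfl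

/-- The common eigenvectors of `N` with the eigenvalues `χ`. -/
def Wt (ρ : Representation k G V) (N : Subgroup G) (χ : G → k) : Submodule k V where
  carrier := {w | ∀ g ∈ N, ρ g w = χ g • w}
  zero_mem' := fun g _ => by simp
  add_mem' := by
    intro a b ha hb g hg
    rw [map_add, ha g hg, hb g hg, smul_add]
  smul_mem' := by
    intro r a ha g hg
    rw [map_smul, ha g hg, smul_comm]

lemma mem_Wt {ρ : Representation k G V} {N : Subgroup G} {χ : G → k} {w : V} :
    w ∈ Wt ρ N χ ↔ ∀ g ∈ N, ρ g w = χ g • w := Iff.rfl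

lemma map_wt (ρ : Representation k G V) (N : Subgroup G) [hN : N.Normal] (χ : G → k) (g : G) :
    (Wt ρ N χ).map (ρ g) = Wt ρ N fun x => χ (g⁻¹ * x * g) := by
  apply le_antisymm
  · rintro _ ⟨w, hw, rfl⟩ x hx
    have h1 : g⁻¹ * x * g ∈ N := by
      have := hN.conj_mem x hx g⁻¹
      rwa [inv_inv] at this
    have h2 : x * g = g * (g⁻¹ * x * g) := by group
    rw [← mul_app, h2, mul_app, hw _ h1, map_smul]
  · intro w hw
    refine ⟨ρ g⁻¹ w, ?_, apply_inv ρ g w⟩
    intro x hx
    have h1 : g * x * g⁻¹ ∈ N := hN.conj_mem x hx g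
    have h2 : x * g⁻¹ = g⁻¹ * (g * x * g⁻¹) := by group
    rw [← mul_app, h2, mul_app, hw _ h1, map_smul]
    congr 2
    group

lemma indep_wt {ι : Type*} (ρ : Representation k G V) (N : Subgroup G) (χ : ι → G → k)
    (h : ∀ i j, i ≠ j → ∃ g ∈ N, χ i g ≠ χ j g) (s : Finset ι) :
    ∀ v : ι → V, (∀ i ∈ s, v i ∈ Wt ρ N (χ i)) → ∑ i ∈ s, v i = 0 → ∀ i ∈ s, v i = 0 := by
  induction s using Finset.induction_on with
  | empty =>
    intro v _ _ i hi
    simp at hi
  | insert j s hj ih =>
    intro v hv hs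
    rw [Finset.sum_insert hj] at hs
    have key : ∀ i ∈ s, v i = 0 := by
      intro i0 hi0
      have hne : i0 ≠ j := fun h => hj (h ▸ hi0)
      obtain ⟨g, hg, hgne⟩ := h i0 j hne
      have h1 := ih (fun i => (χ i g - χ j g) • v i)
        (fun i hi => Submodule.smul_mem _ _ (hv i (Finset.mem_insert_of_mem hi))) ?_ i0 hi0
      · rcases smul_eq_zero.1 h1 with h2 | h2
        · exact absurd (sub_eq_zero.1 h2) hgne
        · exact h2
      · have h2 : ∑ i ∈ s, (χ i g - χ j g) • v i = ρ g (∑ i ∈ s, v i) - χ j g • ∑ i ∈ s, v i := by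
          rw [map_sum, Finset.smul_sum, ← Finset.sum_sub_distrib]
          refine Finset.sum_congr rfl fun i hi => ?_
          rw [hv i (Finset.mem_insert_of_mem hi) g hg, sub_smul]
        have h3 : ∑ i ∈ s, v i = - v j := by
          rw [eq_neg_iff_add_eq_zero, add_comm]
          exact hs
        rw [h2, h3, map_neg, hv j (Finset.mem_insert_self _ _) g hg, smul_neg, sub_self]
    intro i hi
    rcases Finset.mem_insert.1 hi with rfl | hi
    · rw [Finset.sum_eq_zero key, add_zero] at hs
      exact hs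
    · exact key i hi

lemma card_mul_le [FiniteDimensional k V] {ι : Type*} (ρ : Representation k G V)
    (W : Submodule k V) (s : Finset ι) (g : ι → G)
    (h : ∀ v : ι → V, (∀ i ∈ s, v i ∈ W.map (ρ (g i))) → ∑ i ∈ s, v i = 0 → ∀ i ∈ s, v i = 0) :
    s.card * Module.finrank k W ≤ Module.finrank k V := by
  let f : (s → W) →ₗ[k] V := ∑ i : s, (ρ (g i)).comp (W.subtype.comp (LinearMap.proj i))
  have hf : Function.Injective f := by
    rw [← LinearMap.ker_eq_bot, LinearMap.ker_eq_bot']
    intro w hw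
    have h1 := h (fun i => if hi : i ∈ s then ρ (g i) (w ⟨i, hi⟩) else 0) ?_ ?_
    · ext i
      have h2 := h1 i.1 i.2
      rw [dif_pos i.2] at h2
      have h3 := congrArg (ρ (g i)⁻¹) h2
      rw [inv_apply, map_zero] at h3
      exact h3
    · intro i hi
      rw [dif_pos hi]
      exact ⟨_, (w ⟨i, hi⟩).2, rfl⟩
    · rw [← Finset.sum_coe_sort]
      rw [← hw]
      simp only [f, LinearMap.sum_apply, LinearMap.comp_apply, LinearMap.proj_apply,
        Submodule.subtype_apply]
      refine Finset.sum_congr rfl fun i _ => ?_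
      rw [dif_pos i.2]
  have h1 := LinearMap.finrank_le_finrank_of_injective hf
  rw [Module.finrank_pi_fintype, Finset.sum_const, smul_eq_mul, Finset.card_univ,
    Fintype.card_coe] at h1
  exact h1

/-- The stabilizer of a subspace. -/
def spStab (ρ : Representation k G V) (W : Submodule k V) : Subgroup G where
  carrier := {g | W.map (ρ g) = W}
  one_mem' := by
    change W.map (ρ 1) = W
    rw [map_one]
    exact Submodule.map_id W
  mul_mem' := by
    intro g h hg hh
    change W.map (ρ (g * h)) = W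
    rw [map_mul]
    change W.map ((ρ g).comp (ρ h)) = W
    rw [Submodule.map_comp, hh, hg]
  inv_mem' := by
    intro g hg
    change W.map (ρ g⁻¹) = W
    conv_lhs => rw [← (show W.map (ρ g) = W from hg)]
    rw [← Submodule.map_comp]
    have : (ρ g⁻¹).comp (ρ g) = LinearMap.id := by
      ext v
      exact inv_apply ρ g v
    rw [this, Submodule.map_id]

lemma mem_spStab {ρ : Representation k G V} {W : Submodule k V} {g : G} :
    g ∈ spStab ρ W ↔ W.map (ρ g) = W := Iff.rfl

/-- The index of the stabilizer of a weight space. -/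
lemma index_wt [FiniteDimensional k V] (ρ : Representation k G V) (N : Subgroup G)
    [hN : N.Normal] (χ : G → k) (hW : Wt ρ N χ ≠ ⊥) :
    (spStab ρ (Wt ρ N χ)).index ≠ 0 ∧
      (spStab ρ (Wt ρ N χ)).index * Module.finrank k (Wt ρ N χ) ≤ Module.finrank k V := by
  have hpos : 0 < Module.finrank k (Wt ρ N χ) := by
    haveI : Nontrivial (Wt ρ N χ) := (Submodule.nontrivial_iff_ne_bot).2 hW
    exact Module.finrank_pos
  have key : ∀ s : Finset (G ⧸ spStab ρ (Wt ρ N χ)),
      s.card * Module.finrank k (Wt ρ N χ) ≤ Module.finrank k V := by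
    intro s
    apply card_mul_le ρ (Wt ρ N χ) s (fun q => q.out)
    have h1 : ∀ q : G ⧸ spStab ρ (Wt ρ N χ), (Wt ρ N χ).map (ρ q.out) =
        Wt ρ N fun x => χ (q.out⁻¹ * x * q.out) := fun q => map_wt ρ N χ q.out
    intro v hv
    refine indep_wt ρ N (fun (q : G ⧸ spStab ρ (Wt ρ N χ)) x => χ (q.out⁻¹ * x * q.out)) ?_ s v
      (fun i hi => by rw [← h1]; exact hv i hi)
    intro q q' hne
    by_contra hcon
    push Not at hcon
    apply hne
    have h2 : (Wt ρ N χ).map (ρ q.out) = (Wt ρ N χ).map (ρ q'.out) := by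
      rw [h1, h1]
      ext w
      rw [mem_Wt, mem_Wt]
      constructor
      · intro h g hg
        rw [h g hg, hcon g hg]
      · intro h g hg
        rw [h g hg, hcon g hg]
    rw [← q.out_eq', ← q'.out_eq']
    rw [QuotientGroup.eq, mem_spStab]
    rw [map_mul]
    change (Wt ρ N χ).map ((ρ q.out⁻¹).comp (ρ q'.out)) = _
    rw [Submodule.map_comp, ← h2, ← Submodule.map_comp]
    have : (ρ q.out⁻¹).comp (ρ q.out) = LinearMap.id := by
      ext v
      exact inv_apply ρ _ v
    rw [this, Submodule.map_id]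
  have hfin : Finite (G ⧸ spStab ρ (Wt ρ N χ)) := by
    have h1 : ∀ s : Finset (G ⧸ spStab ρ (Wt ρ N χ)), s.card ≤ Module.finrank k V := fun s =>
      le_trans (Nat.le_mul_of_pos_right _ hpos) (key s)
    exact @Finite.of_fintype _ (fintypeOfFinsetCardLe _ h1)
  haveI := Fintype.ofFinite (G ⧸ spStab ρ (Wt ρ N χ))
  refine ⟨Subgroup.index_ne_zero_of_finite, ?_⟩
  have := key Finset.univ
  rwa [Finset.card_univ, ← Nat.card_eq_fintype_card] at this

end basic

/-- A subgroup of an extension of `A` by a cyclic group. -/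
lemma step_sub {G : Type v} [Group G] (H A B : Subgroup G) [A.Normal] (x : G)
    (hB : B ≤ A ⊔ Subgroup.zpowers x) :
    ∃ y : H, B.subgroupOf H ≤ A.subgroupOf H ⊔ Subgroup.zpowers y := by
  let S : Subgroup (G ⧸ A) := ((B.subgroupOf H).map H.subtype).map (QuotientGroup.mk' A)
  have hS : S ≤ Subgroup.zpowers (QuotientGroup.mk' A x) := by
    rintro _ ⟨_, ⟨b, hb, rfl⟩, rfl⟩
    have h1 : (b : G) ∈ A ⊔ Subgroup.zpowers x := hB hb
    have h2 : (A ⊔ Subgroup.zpowers x).map (QuotientGroup.mk' A) =
        Subgroup.zpowers (QuotientGroup.mk' A x) := by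
      rw [Subgroup.map_sup, MonoidHom.map_zpowers]
      have : A.map (QuotientGroup.mk' A) = ⊥ := by
        rw [Subgroup.map_eq_bot_iff, QuotientGroup.ker_mk']
      rw [this, bot_sup_eq]
    rw [← h2]
    exact ⟨_, h1, rfl⟩
  have : IsCyclic S := Subgroup.isCyclic_of_le hS
  obtain ⟨z, hz⟩ := (Subgroup.isCyclic_iff_exists_zpowers_eq_top S).1 this
  have hzS : z ∈ S := hz ▸ Subgroup.mem_zpowers z
  obtain ⟨_, ⟨y, hy, rfl⟩, hyz⟩ := hzS
  refine ⟨y, fun b hb => ?_⟩
  have h1 : QuotientGroup.mk' A (b : G) ∈ S := ⟨_, ⟨b, hb, rfl⟩, rfl⟩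
  rw [← hz, ← hyz] at h1
  obtain ⟨n, hn⟩ := Subgroup.mem_zpowers_iff.1 h1
  have h2 : (H.subtype y ^ n)⁻¹ * (b : G) ∈ A := by
    rw [← QuotientGroup.eq]
    change QuotientGroup.mk' A (H.subtype y ^ n) = QuotientGroup.mk' A (b : G)
    rw [map_zpow]
    exact hn
  have h3 : (y ^ n)⁻¹ * b ∈ A.subgroupOf H := by
    rw [Subgroup.mem_subgroupOf]
    push_cast
    exact h2
  have h4 : b = y ^ n * ((y ^ n)⁻¹ * b) := by group
  rw [h4]
  exact mul_mem (Subgroup.mem_sup_right (Subgroup.mem_zpowers_iff.2 ⟨n, rfl⟩))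
    (Subgroup.mem_sup_left h3)

/-- The main step: there is a subgroup of index at most the dimension with an eigenvector. -/
theorem exists_index_le [IsAlgClosed k] (m : ℕ) : ∀ (n : ℕ) (G : Type v) [Group G] (V : Type u)
    [AddCommGroup V] [Module k V] [FiniteDimensional k V] (ρ : Representation k G V)
    (N : ℕ → Subgroup G), (∀ i, (N i).Normal) → N n = ⊤ → (∀ i, N i ≤ N (i + 1)) →
    (∀ i, ∃ x, N (i + 1) ≤ N i ⊔ Subgroup.zpowers x) → n + Module.finrank k V ≤ m →
    (∃ v : V, v ≠ 0 ∧ N 0 ≤ lineStab ρ v) →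
    ∃ K : Subgroup G, N 0 ≤ K ∧ K.index ≠ 0 ∧ K.index ≤ Module.finrank k V ∧
      ∃ v : V, v ≠ 0 ∧ K ≤ lineStab ρ v := by
  induction m with
  | zero =>
    intro n G _ V _ _ _ ρ N _ _ _ _ hm hv
    obtain ⟨v, hv, _⟩ := hv
    haveI : Nontrivial V := ⟨v, 0, hv⟩
    have : 0 < Module.finrank k V := Module.finrank_pos
    omega
  | succ m ih =>
    intro n G _ V _ _ _ ρ N hN htop hmono hcyc hm hv
    obtain ⟨v, hv, hvN⟩ := hv
    haveI : Nontrivial V := ⟨v, 0, hv⟩
    have hVpos : 0 < Module.finrank k V := Module.finrank_pos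
    have := hN 0
    obtain ⟨χ, hχ⟩ : ∃ χ : G → k, ∀ g ∈ N 0, ρ g v = χ g • v := by
      refine ⟨fun g => if h : ∃ a : k, ρ g v = a • v then h.choose else 0, fun g hg => ?_⟩
      have h : ∃ a : k, ρ g v = a • v := hvN hg
      simp only [dif_pos h]
      exact h.choose_spec
    have hvW : v ∈ Wt ρ (N 0) χ := hχ
    have hWbot : Wt ρ (N 0) χ ≠ ⊥ := by
      intro h
      rw [h, Submodule.mem_bot] at hvW
      exact hv hvW
    by_cases hW : Wt ρ (N 0) χ = ⊤
    · cases n with
      | zero =>
        refine ⟨⊤, le_top, by simp, by simp; omega, v, hv, ?_⟩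
        rw [← htop]
        exact hvN
      | succ n =>
        obtain ⟨x, hx⟩ := hcyc 0
        obtain ⟨μ, hμ⟩ := Module.End.exists_eigenvalue (ρ x)
        obtain ⟨v1, hv1⟩ := hμ.exists_hasEigenvector
        have h1 : N 0 ≤ lineStab ρ v1 := by
          intro g hg
          have : v1 ∈ Wt ρ (N 0) χ := by rw [hW]; trivial
          exact ⟨χ g, this g hg⟩
        have h2 : x ∈ lineStab ρ v1 := ⟨μ, hv1.apply_eq_smul⟩
        have h3 : N 1 ≤ lineStab ρ v1 :=
          le_trans hx (sup_le h1 (by rw [Subgroup.zpowers_le]; exact h2))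
        obtain ⟨K, hK1, hK2, hK3, hK4⟩ := ih n G V ρ (fun i => N (i + 1)) (fun i => hN _) htop
          (fun i => hmono _) (fun i => hcyc _) (by omega) ⟨v1, hv1.2, h3⟩
        exact ⟨K, le_trans (hmono 0) hK1, hK2, hK3, hK4⟩
    · set W := Wt ρ (N 0) χ with hWdef
      have hlt : Module.finrank k W < Module.finrank k V :=
        Submodule.finrank_lt (lt_top_iff_ne_top.2 hW).ne
      set H := spStab ρ W with hH
      obtain ⟨hi1, hi2⟩ := index_wt ρ (N 0) χ hWbot
      rw [← hWdef, ← hH] at hi1 hi2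
      let ρ1 : Representation k H V := ρ.comp H.subtype
      have hst : Stable ρ1 W := by
        intro g w hw
        have h1 : W.map (ρ (g : G)) = W := g.2
        rw [← h1]
        exact ⟨w, hw, rfl⟩
      have hN0H : N 0 ≤ H := by
        have h1 : ∀ g ∈ N 0, W.map (ρ g) ≤ W := by
          rintro g hg _ ⟨w, hw, rfl⟩
          rw [hw g hg]
          exact W.smul_mem _ hw
        intro g hg
        rw [hH, mem_spStab]
        apply le_antisymm (h1 g hg)
        intro w hw
        refine ⟨ρ g⁻¹ w, ?_, apply_inv ρ g w⟩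
        exact h1 g⁻¹ (inv_mem hg) ⟨w, hw, rfl⟩
      obtain ⟨K, hK1, hK2, hK3, w, hw0, hK4⟩ := ih n H W (sub ρ1 W hst)
        (fun i => (N i).subgroupOf H)
        (fun i => by
          have := hN i
          infer_instance)
        (by
          change (N n).subgroupOf H = ⊤
          rw [htop]
          exact Subgroup.top_subgroupOf H)
        (fun i => Subgroup.comap_mono (hmono i))
        (fun i => by
          have := hN i
          obtain ⟨x, hx⟩ := hcyc i
          exact step_sub H (N i) (N (i + 1)) x hx)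
        (by omega)
        ⟨⟨v, hvW⟩, fun h => hv (congrArg Subtype.val h), by
          intro g hg
          obtain ⟨a, ha⟩ := hvN hg
          exact ⟨a, Subtype.ext ha⟩⟩
      refine ⟨K.map H.subtype, ?_, ?_, ?_, (w : V), fun h => hw0 (Subtype.ext h), ?_⟩
      · intro g hg
        exact ⟨⟨g, hN0H hg⟩, hK1 hg, rfl⟩
      · rw [Subgroup.index_map_subtype]
        exact Nat.mul_ne_zero hK2 hi1
      · rw [Subgroup.index_map_subtype]
        calc K.index * H.index ≤ Module.finrank k W * H.index := Nat.mul_le_mul_right _ hK3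
          _ = H.index * Module.finrank k W := mul_comm _ _
          _ ≤ Module.finrank k V := hi2
      · rintro _ ⟨g, hg, rfl⟩
        obtain ⟨a, ha⟩ := hK4 hg
        exact ⟨a, congrArg Subtype.val ha⟩

end Pool.Agent.V2450.Deligne
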