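import Pool.Agent.V2450.Deligne.Main

/-!
# Representations which are abelian on a normal subgroup with nilpotent quotient
-/

set_option autoImplicit false

open scoped Classical

namespace Pool.Agent.V2450.Deligne

universe u v

/-- Finite nilpotent groups are supersolvable. -/
theorem super_of_nilp (n : ℕ) : ∀ (Q : Type v) [Group Q] [Finite Q] [Group.IsNilpotent Q],
    Nat.card Q = n → Supersolvable Q := by
  induction n using Nat.strong_induction_on with
  | _ n ih =>
    intro Q _ _ _ hn
    rcases subsingleton_or_nontrivial Q with hQ | hQ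
    · refine ⟨0, fun _ => ⊥, fun _ => inferInstance, rfl, ?_, fun _ => le_rfl, fun _ => ⟨1, ?_⟩⟩
      · exact Subsingleton.elim _ _
      · rw [Subgroup.zpowers_one_eq_bot, sup_idem]
    · have hc : Subgroup.center Q ≠ ⊥ := Group.IsNilpotent.center_ne_bot Q
      obtain ⟨⟨z, hz⟩, hz2⟩ := Subgroup.ne_bot_iff_exists_ne_one.1 hc
      have hz1 : z ≠ 1 := fun h => hz2 (Subtype.ext h)
      have hZn : (Subgroup.zpowers z).Normal := by
        constructor
        intro x hx g
        have h1 : x ∈ Subgroup.center Q := (Subgroup.zpowers_le.2 hz) hx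
        have h2 : g * x * g⁻¹ = x := by
          rw [(Subgroup.mem_center_iff.1 h1 g), mul_inv_cancel_right]
        rw [h2]
        exact hx
      have hlt : Nat.card (Q ⧸ Subgroup.zpowers z) < n := by
        rw [← hn, Subgroup.card_eq_card_quotient_mul_card_subgroup (Subgroup.zpowers z)]
        have h1 : 1 < Nat.card (Subgroup.zpowers z) := by
          rw [Nat.card_zpowers]
          have h3 : 0 < orderOf z := orderOf_pos z
          have h4 : orderOf z ≠ 1 := fun h => hz1 (orderOf_eq_one_iff.1 h)
          omega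
        have h2 : 0 < Nat.card (Q ⧸ Subgroup.zpowers z) := Nat.card_pos
        exact (Nat.lt_mul_iff_one_lt_right h2).2 h1
      obtain ⟨m, C, hC1, hC2, hC3, hC4, hC5⟩ := ih _ hlt (Q ⧸ Subgroup.zpowers z) rfl
      let f := QuotientGroup.mk' (Subgroup.zpowers z)
      have hf : Function.Surjective f := QuotientGroup.mk'_surjective _
      let N : ℕ → Subgroup Q := fun i => match i with
        | 0 => ⊥
        | (j + 1) => (C j).comap f
      refine ⟨m + 1, N, ?_, rfl, ?_, ?_, ?_⟩
      · intro i
        cases i with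
        | zero => exact (inferInstance : (⊥ : Subgroup Q).Normal)
        | succ j => exact (hC1 j).comap f
      · change (C m).comap f = ⊤
        rw [hC3, Subgroup.comap_top]
      · intro i
        cases i with
        | zero => exact bot_le
        | succ j => exact Subgroup.comap_mono (hC4 j)
      · intro i
        cases i with
        | zero =>
          refine ⟨z, ?_⟩
          change (C 0).comap f = ⊥ ⊔ Subgroup.zpowers z
          rw [hC2, bot_sup_eq, MonoidHom.comap_bot, QuotientGroup.ker_mk']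
        | succ j =>
          obtain ⟨x, hx⟩ := hC5 j
          obtain ⟨y, rfl⟩ := hf x
          refine ⟨y, ?_⟩
          change (C (j + 1)).comap f = (C j).comap f ⊔ Subgroup.zpowers y
          rw [hx, ← Subgroup.comap_sup_eq _ _ _ hf, ← MonoidHom.map_zpowers,
            Subgroup.comap_map_eq, sup_comm (Subgroup.zpowers y), ← sup_assoc]
          congr 1
          exact sup_eq_left.2 (Subgroup.ker_le_comap f (C j))

section

variable {k : Type u} [Field k] {G : Type v} [Group G] {V : Type u} [AddCommGroup V] [Module k V]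

/-- The subspace `W` is stable under the subgroup `H`. -/
def StableUnder (ρ : Representation k G V) (H : Subgroup G) (W : Submodule k V) : Prop :=
  ∀ h ∈ H, ∀ w ∈ W, ρ h w ∈ W

/-- The subspace which is spanned by the vectors `ρ h v`, `h ∈ K`. -/
def orb (ρ : Representation k G V) (K : Subgroup G) (v : V) : Submodule k V :=
  Submodule.span k {w | ∃ h ∈ K, ρ h v = w}

lemma mem_orb (ρ : Representation k G V) {K : Subgroup G} (v : V) {h : G} (hh : h ∈ K) :
    ρ h v ∈ orb ρ K v := Submodule.subset_span ⟨h, hh, rfl⟩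

lemma orb_stable (ρ : Representation k G V) (K : Subgroup G) (v : V) :
    StableUnder ρ K (orb ρ K v) := by
  intro g hg w hw
  refine Submodule.span_induction ?_ ?_ ?_ ?_ hw
  · rintro _ ⟨h, hh, rfl⟩
    rw [← mul_app]
    exact mem_orb ρ v (mul_mem hg hh)
  · rw [map_zero]
    exact Submodule.zero_mem _
  · intro x y _ _ hx hy
    rw [map_add]
    exact Submodule.add_mem _ hx hy
  · intro a x _ hx
    rw [map_smul]
    exact Submodule.smul_mem _ _ hx

lemma orb_iSup (ρ : Representation k G V) {K K' : Subgroup G} (hK : K ≤ K') (v : V) :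
    (⨆ h : K', (orb ρ K v).map (ρ (h : G))) = orb ρ K' v := by
  apply le_antisymm
  · refine iSup_le fun h => ?_
    rintro _ ⟨w, hw, rfl⟩
    apply orb_stable ρ K' v h h.2
    exact Submodule.span_mono (by rintro _ ⟨x, hx, rfl⟩; exact ⟨x, hK hx, rfl⟩) hw
  · refine Submodule.span_le.2 ?_
    rintro _ ⟨h, hh, rfl⟩
    refine (le_iSup (fun h : K' => (orb ρ K v).map (ρ (h : G))) ⟨h, hh⟩) ?_
    refine ⟨v, ?_, rfl⟩
    have := mem_orb ρ v (one_mem K)
    rwa [map_one, Module.End.one_apply] at this

lemma finrank_orb (ρ : Representation k G V) {K₀ K : Subgroup G} {v : V} (hv : v ≠ 0)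
    (hK₀ : K₀ ≤ lineStab ρ v) (hli : LinearIndependent k fun q : G ⧸ K₀ => ρ q.out v)
    (hfin : Finite (G ⧸ K₀)) :
    Module.finrank k (orb ρ K v) = K₀.relIndex K := by
  let X := MulAction.orbit K (((1 : G)) : G ⧸ K₀)
  have : Fintype X := Fintype.ofFinite X
  have hout : ∀ h : G, ∃ a : k, a ≠ 0 ∧ ρ ((h : G ⧸ K₀).out) v = a • ρ h v := by
    intro h
    have h1 : h⁻¹ * ((h : G ⧸ K₀).out) ∈ K₀ := by
      rw [← QuotientGroup.eq, QuotientGroup.out_eq']
    obtain ⟨a, ha⟩ := hK₀ h1
    have h2 : ρ ((h : G ⧸ K₀).out) v = a • ρ h v := by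
      have h3 : ((h : G ⧸ K₀).out) = h * (h⁻¹ * ((h : G ⧸ K₀).out)) := by group
      conv_lhs => rw [h3]
      rw [mul_app, ha, map_smul]
    refine ⟨a, ?_, h2⟩
    rintro rfl
    rw [zero_smul] at h2
    have h3 := inv_apply ρ ((h : G ⧸ K₀).out) v
    rw [h2, map_zero] at h3
    exact hv h3.symm
  have hspan : orb ρ K v = Submodule.span k (Set.range fun x : X => ρ (x : G ⧸ K₀).out v) := by
    apply le_antisymm
    · refine Submodule.span_le.2 ?_
      rintro _ ⟨h, hh, rfl⟩
      obtain ⟨a, ha0, ha⟩ := hout h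
      have h1 : ρ h v = a⁻¹ • ρ ((h : G ⧸ K₀).out) v := by
        rw [ha, smul_smul, inv_mul_cancel₀ ha0, one_smul]
      rw [h1]
      refine Submodule.smul_mem _ _ (Submodule.subset_span ?_)
      refine ⟨⟨(h : G ⧸ K₀), ⟨⟨h, hh⟩, ?_⟩⟩, rfl⟩
      change h • ((1 : G) : G ⧸ K₀) = (h : G ⧸ K₀)
      rw [MulAction.Quotient.smul_coe, smul_eq_mul, mul_one]
    · refine Submodule.span_le.2 ?_
      rintro _ ⟨⟨x, ⟨h, hx⟩⟩, rfl⟩
      have h1 : ((h : G) : G ⧸ K₀) = x := by
        rw [← hx]
        change _ = (h : G) • ((1 : G) : G ⧸ K₀)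
        rw [MulAction.Quotient.smul_coe, smul_eq_mul, mul_one]
      obtain ⟨a, _, ha⟩ := hout (h : G)
      rw [h1] at ha
      change ρ x.out v ∈ orb ρ K v
      rw [ha]
      exact Submodule.smul_mem _ _ (mem_orb ρ v h.2)
  have h0 : Module.finrank k (Submodule.span k (Set.range fun x : X => ρ (x : G ⧸ K₀).out v)) =
      Fintype.card X := finrank_span_eq_card (hli.comp Subtype.val Subtype.val_injective)
  rw [hspan, h0, ← Nat.card_eq_fintype_card]
  have h1 : MulAction.stabilizer K (((1 : G)) : G ⧸ K₀) = K₀.subgroupOf K := by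
    ext g
    rw [MulAction.mem_stabilizer_iff, Subgroup.mem_subgroupOf]
    change (g : G) • ((1 : G) : G ⧸ K₀) = _ ↔ _
    rw [MulAction.Quotient.smul_coe, smul_eq_mul, mul_one, eq_comm, QuotientGroup.eq, inv_one,
      one_mul]
  rw [Subgroup.relIndex, ← h1, MulAction.index_stabilizer]
  rfl

/-- The known facts on the predicate `P H W`: the subspace `W` is stable under `H` and the
representation of `H` on `W` is automorphic. -/
structure IsAut (ρ : Representation k G V) (N : Subgroup G) (P : Subgroup G → Submodule k V → Prop) :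
    Prop where
  line : ∀ (H : Subgroup G) (W : Submodule k V), N ≤ H → StableUnder ρ H W →
    Module.finrank k W = 1 → P H W
  ind : ∀ (H H' : Subgroup G) (W W' : Submodule k V), N ≤ H' → H' ≤ H →
    (∀ h ∈ H, ∀ x ∈ H', h * x * h⁻¹ ∈ H') → StableUnder ρ H W → StableUnder ρ H' W' →
    (⨆ h : H, W'.map (ρ (h : G))) = W →
    Module.finrank k W = H'.relIndex H * Module.finrank k W' → P H' W' → P H W
  sum : ∀ (W W' : Submodule k V), Stable ρ W → Stable ρ W' → Disjoint W W' → P ⊤ W → P ⊤ W' →
    P ⊤ (W ⊔ W')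

/-- Irreducible representations: the line and its stabilizer. -/
theorem exists_line [IsAlgClosed k] [FiniteDimensional k V] [Nontrivial V]
    (ρ : Representation k G V) (N : Subgroup G) [hN : N.Normal] (hQ : Supersolvable (G ⧸ N))
    (hab : Ab ρ N) (hirr : ∀ W : Submodule k V, Stable ρ W → W = ⊥ ∨ W = ⊤) :
    ∃ (K : Subgroup G) (v : V), N ≤ K ∧ K.index ≠ 0 ∧ v ≠ 0 ∧ K ≤ lineStab ρ v ∧
      LinearIndependent k (fun q : G ⧸ K => ρ q.out v) := by
  obtain ⟨H, h1, h2, b, hb⟩ := isInduced_of_irr ρ N hQ hab hirr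
  let v := b ((1 : G) : G ⧸ H)
  have hv : v ≠ 0 := b.ne_zero _
  have hst : H ≤ lineStab ρ v := by
    intro h hh
    obtain ⟨a, ha⟩ := hb h ((1 : G) : G ⧸ H)
    refine ⟨a, ?_⟩
    rw [ha]
    congr 2
    rw [MulAction.Quotient.smul_coe, smul_eq_mul, mul_one, eq_comm, QuotientGroup.eq, inv_one,
      one_mul]
    exact hh
  refine ⟨H, v, h1, h2, hv, hst, ?_⟩
  have key : ∀ q : G ⧸ H, ∃ a : kˣ, ρ q.out v = a • b q := by
    intro q
    obtain ⟨a, ha⟩ := hb q.out ((1 : G) : G ⧸ H)
    have h3 : q.out • ((1 : G) : G ⧸ H) = q := by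
      rw [MulAction.Quotient.smul_coe, smul_eq_mul, mul_one, QuotientGroup.out_eq']
    rw [h3] at ha
    have ha0 : a ≠ 0 := by
      rintro rfl
      rw [zero_smul] at ha
      have h4 := inv_apply ρ q.out (b ((1 : G) : G ⧸ H))
      rw [ha, map_zero] at h4
      exact hv h4.symm
    exact ⟨Units.mk0 a ha0, ha⟩
  choose a ha using key
  have h3 : (fun q : G ⧸ H => ρ q.out v) = a • (b : G ⧸ H → V) := by
    ext q
    exact ha q
  rw [h3]
  exact b.linearIndependent.units_smul a

/-- Irreducible stable subspaces are automorphic. -/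
theorem aut_of_irr [IsAlgClosed k] [FiniteDimensional k V] (ρ : Representation k G V)
    (N : Subgroup G) [hN : N.Normal] [Finite (G ⧸ N)] [Group.IsNilpotent (G ⧸ N)]
    (hab : Ab ρ N) {P : Subgroup G → Submodule k V → Prop} (hP : IsAut ρ N P)
    (W : Submodule k V) (hW : Stable ρ W) (hW0 : W ≠ ⊥)
    (hirr : ∀ U ≤ W, Stable ρ U → U = ⊥ ∨ U = W) : P ⊤ W := by
  have hnt : Nontrivial W := Submodule.nontrivial_iff_ne_bot.2 hW0
  have hab' : Ab (sub ρ W hW) N := by
    intro x hx y hy
    ext w
    change ρ (x * y) (w : V) = ρ (y * x) (w : V)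
    rw [hab x hx y hy]
  obtain ⟨K, v, hNK, hK0, hv, hK, hli⟩ := exists_line (sub ρ W hW) N (super_of_nilp _ _ rfl) hab'
    (by
      intro U hU
      have h1 : Stable ρ (U.map W.subtype) := by
        rintro g _ ⟨u, hu, rfl⟩
        exact ⟨sub ρ W hW g u, hU g u hu, rfl⟩
      rcases hirr (U.map W.subtype) (Submodule.map_subtype_le W U) h1 with h2 | h2
      · left
        exact Submodule.map_injective_of_injective W.injective_subtype
          (by rw [h2, Submodule.map_bot])
      · right
        have h3 : U.map W.subtype = (⊤ : Submodule k W).map W.subtype := by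
          rw [h2, Submodule.map_subtype_top]
        exact Submodule.map_injective_of_injective W.injective_subtype h3)
  have hfin : Finite (G ⧸ K) := by
    rw [← not_infinite_iff_finite]
    intro h
    exact hK0 (Nat.card_eq_zero_of_infinite (α := G ⧸ K))
  have hv' : (v : V) ≠ 0 := fun h => hv (Subtype.ext h)
  have hK' : K ≤ lineStab ρ (v : V) := by
    intro g hg
    obtain ⟨a, ha⟩ := hK hg
    exact ⟨a, congrArg Subtype.val ha⟩
  have hli' : LinearIndependent k (fun q : G ⧸ K => ρ q.out (v : V)) :=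
    hli.map' W.subtype (Submodule.ker_subtype W)
  have htop : orb ρ ⊤ (v : V) = W := by
    have h1 : orb ρ ⊤ (v : V) ≤ W := by
      refine Submodule.span_le.2 ?_
      rintro _ ⟨h, _, rfl⟩
      exact hW h v v.2
    rcases hirr _ h1 (fun g w hw => orb_stable ρ ⊤ (v : V) g (Subgroup.mem_top g) w hw) with h2 | h2
    · exfalso
      have h3 := mem_orb ρ (v : V) (one_mem (⊤ : Subgroup G))
      rw [h2, map_one, Module.End.one_apply, Submodule.mem_bot] at h3
      exact hv' h3
    · exact h2
  have hnc : ∀ H : Subgroup G, N ≤ H → H < ⊤ → ∃ H' : Subgroup G, H < H' ∧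
      ∀ h ∈ H', ∀ x ∈ H, h * x * h⁻¹ ∈ H := by
    intro H hNH hH
    have hcomap : (H.map (QuotientGroup.mk' N)).comap (QuotientGroup.mk' N) = H := by
      rw [Subgroup.comap_map_eq, QuotientGroup.ker_mk', sup_eq_left.2 hNH]
    have hlt : H.map (QuotientGroup.mk' N) < ⊤ := by
      rw [lt_top_iff_ne_top]
      intro h
      rw [h, Subgroup.comap_top] at hcomap
      exact hH.ne hcomap.symm
    have h1 := Group.normalizerCondition_of_isNilpotent (H.map (QuotientGroup.mk' N)) hlt
    refine ⟨(Subgroup.normalizer (H.map (QuotientGroup.mk' N))).comap (QuotientGroup.mk' N), ?_, ?_⟩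
    · conv_lhs => rw [← hcomap]
      exact (Subgroup.comap_lt_comap_of_surjective (QuotientGroup.mk'_surjective N)).2 h1
    · intro h hh x hx
      have h2 : QuotientGroup.mk' N h * QuotientGroup.mk' N x * (QuotientGroup.mk' N h)⁻¹ ∈
          H.map (QuotientGroup.mk' N) :=
        (Subgroup.mem_normalizer_iff.1 hh (QuotientGroup.mk' N x)).1 ⟨x, hx, rfl⟩
      rw [← hcomap, Subgroup.mem_comap, map_mul, map_mul, map_inv]
      exact h2
  have key : ∀ (m : ℕ) (H : Subgroup G), K ≤ H → H.index = m → P H (orb ρ H (v : V)) → P ⊤ W := by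
    intro m
    induction m using Nat.strong_induction_on with
    | _ m ih =>
      intro H hKH hm hPH
      by_cases hH : H = ⊤
      · rw [hH, htop] at hPH
        exact hPH
      · obtain ⟨H', hlt, hnorm⟩ := hnc H (le_trans hNK hKH) (lt_top_iff_ne_top.2 hH)
        have hidx : H.index ≠ 0 := by
          intro h0
          have := Subgroup.index_dvd_of_le hKH
          rw [h0] at this
          exact hK0 (Nat.eq_zero_of_zero_dvd this)
        refine ih H'.index ?_ H' (le_trans hKH hlt.le) rfl ?_
        · rw [← hm]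
          have h1 := Subgroup.relIndex_mul_index hlt.le
          have h2 : H.relIndex H' ≠ 1 := by
            rw [Ne, Subgroup.relIndex_eq_one]
            exact fun h => hlt.not_ge h
          have h3 : H.relIndex H' ≠ 0 := by
            intro h0
            rw [h0, zero_mul] at h1
            exact hidx h1.symm
          have h4 : H'.index ≠ 0 := by
            intro h0
            rw [h0, mul_zero] at h1
            exact hidx h1.symm
          rw [← h1]
          exact (Nat.lt_mul_iff_one_lt_left (Nat.pos_of_ne_zero h4)).2 (by omega)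
        · refine hP.ind H' H _ (orb ρ H (v : V)) (le_trans hNK hKH) hlt.le hnorm
            (orb_stable ρ H' v) (orb_stable ρ H v) (orb_iSup ρ hlt.le v) ?_ hPH
          rw [finrank_orb ρ hv' hK' hli' hfin, finrank_orb ρ hv' hK' hli' hfin, mul_comm]
          exact (Subgroup.relIndex_mul_relIndex K H H' hKH hlt.le).symm
  refine key _ K le_rfl rfl (hP.line K _ hNK (orb_stable ρ K v) ?_)
  rw [finrank_orb ρ hv' hK' hli' hfin, Subgroup.relIndex_self]

/-- All stable subspaces are automorphic. -/
theorem aut_all [IsAlgClosed k] [FiniteDimensional k V] (ρ : Representation k G V)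
    (N : Subgroup G) [hN : N.Normal] [Finite (G ⧸ N)] [Group.IsNilpotent (G ⧸ N)]
    (hab : Ab ρ N) {P : Subgroup G → Submodule k V → Prop} (hP : IsAut ρ N P)
    (hss : ∀ U : Submodule k V, Stable ρ U → ∃ U' : Submodule k V, Stable ρ U' ∧ IsCompl U U')
    (d : ℕ) : ∀ W : Submodule k V, Stable ρ W → W ≠ ⊥ → Module.finrank k W = d → P ⊤ W := by
  induction d using Nat.strong_induction_on with
  | _ d ih =>
    intro W hW hW0 hd
    by_cases hirr : ∀ U ≤ W, Stable ρ U → U = ⊥ ∨ U = W
    · exact aut_of_irr ρ N hab hP W hW hW0 hirr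
    · push Not at hirr
      obtain ⟨U, hUW, hU, hU0, hU1⟩ := hirr
      obtain ⟨U', hU', hc⟩ := hss U hU
      have hst : Stable ρ (U' ⊓ W) := fun g w hw => ⟨hU' g w hw.1, hW g w hw.2⟩
      have hsup : U ⊔ U' ⊓ W = W := by
        rw [← sup_inf_assoc_of_le U' hUW, hc.sup_eq_top, top_inf_eq]
      have hdis : Disjoint U (U' ⊓ W) := hc.disjoint.mono_right inf_le_left
      have h1 : U' ⊓ W ≠ ⊥ := by
        intro h
        rw [h, sup_bot_eq] at hsup
        exact hU1 hsup
      have h2 : U < W := lt_of_le_of_ne hUW hU1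
      have h3 : U' ⊓ W < W := by
        refine lt_of_le_of_ne inf_le_right ?_
        intro h
        rw [h] at hdis
        exact hU0 ((hdis.mono_left le_rfl).eq_bot_of_le hUW)
      have h4 := hP.sum U (U' ⊓ W) hU hst hdis
        (ih _ (by rw [← hd]; exact Submodule.finrank_lt_finrank_of_lt h2) U hU hU0 rfl)
        (ih _ (by rw [← hd]; exact Submodule.finrank_lt_finrank_of_lt h3) _ hst h1 rfl)
      rwa [hsup] at h4

end

end Pool.Agent.V2450.Deligne
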